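import Pool.Agent.Lib.MP_b39aa3_co.Transfer

/-!
Eleven graphs on five vertices whose clique step graph has independence number four.
-/

set_option autoImplicit false

namespace Pool.Agent.Lib.MP_b39aa3_co

open Finset

/-- the edge sets of the eleven patterns, as bit masks; the pairs of vertices are numbered
01, 02, 03, 04, 12, 13, 14, 23, 24, 34 -/
def mask (k : Fin 11) : ℕ :=
  match k with
  | 0 => 0
  | 1 => 384
  | 2 => 832
  | 3 => 896
  | 4 => 960
  | 5 => 992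
  | 6 => 996
  | 7 => 997
  | 8 => 1005
  | 9 => 1008
  | 10 => 1015

/-- number of the pair -/
def pairIdx (i j : Fin 5) : ℕ :=
  match i, j with
  | 0, 1 => 0 | 1, 0 => 0
  | 0, 2 => 1 | 2, 0 => 1
  | 0, 3 => 2 | 3, 0 => 2
  | 0, 4 => 3 | 4, 0 => 3
  | 1, 2 => 4 | 2, 1 => 4
  | 1, 3 => 5 | 3, 1 => 5
  | 1, 4 => 6 | 4, 1 => 6
  | 2, 3 => 7 | 3, 2 => 7
  | 2, 4 => 8 | 4, 2 => 8
  | 3, 4 => 9 | 4, 3 => 9
  | _, _ => 10

/-- adjacency in the patterns -/
def adjB (k : Fin 11) (i j : Fin 5) : Bool := (mask k).testBit (pairIdx i j)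

/-- the patterns -/
def pat (k : Fin 11) : SimpleGraph (Fin 5) where
  Adj i j := adjB k i j = true
  symm := ⟨by
    intro i j h
    revert k i j
    decide⟩
  loopless := ⟨by
    intro i h
    revert k i
    decide⟩

/-- the sixteen clique steps: larger graph, smaller graph, vertex set of the clique -/
def steps : List (Fin 11 × Fin 11 × Finset (Fin 5)) :=
  [(5, 1, {1, 3, 4}), (3, 1, {3, 4}), (8, 1, {0, 1, 3, 4}), (7, 6, {0, 1}), (10, 6, {0, 1, 2}),
   (7, 4, {0, 1, 3}), (5, 4, {1, 3}), (9, 0, {1, 2, 3, 4}), (3, 0, {2, 3, 4}), (8, 7, {0, 4}),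
   (6, 5, {0, 3}), (9, 5, {1, 2}), (4, 3, {1, 4}), (4, 2, {2, 3}), (9, 2, {1, 2, 3}),
   (10, 2, {0, 1, 2, 3})]

theorem steps_spec : ∀ p ∈ steps, CliqueStep (pat p.1) (pat p.2.1) := by
  have h : ∀ p ∈ steps, (∀ u v : Fin 5, adjB p.2.1 u v = true → adjB p.1 u v = true) ∧
      2 ≤ p.2.2.card ∧ ∀ u v : Fin 5, (adjB p.1 u v = true ∧ ¬ adjB p.2.1 u v = true) ↔
        (u ∈ p.2.2 ∧ v ∈ p.2.2 ∧ u ≠ v) := by
    decide +kernel
  intro p hp
  obtain ⟨h1, h2, h3⟩ := h p hp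
  exact ⟨fun u v => h1 u v, p.2.2, h2, h3⟩

/-- The independence number is four: boolean form. -/
theorem eleven_bool : ∀ b0 b1 b2 b3 b4 b5 b6 b7 b8 b9 b10 : Bool,
    ((b5 && b1) || (b3 && b1) || (b8 && b1) || (b7 && b6) || (b10 && b6) ||
      (b7 && b4) || (b5 && b4) || (b9 && b0) || (b3 && b0) || (b8 && b7) ||
      (b6 && b5) || (b9 && b5) || (b4 && b3) || (b4 && b2) || (b9 && b2) || (b10 && b2) ||
    decide (b0.toNat + b1.toNat + b2.toNat + b3.toNat + b4.toNat + b5.toNat + b6.toNat + b7.toNat +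
      b8.toNat + b9.toNat + b10.toNat ≤ 4)) = true := by
  decide +kernel

/-- The independence number is four. -/
theorem eleven_indep (J : Finset (Fin 11))
    (hJ : ∀ p ∈ steps, ¬ (p.1 ∈ J ∧ p.2.1 ∈ J)) : J.card ≤ 4 := by
  have h1 : J.card = ∑ k : Fin 11, (decide (k ∈ J)).toNat := by
    have h0 : ∀ k : Fin 11, (decide (k ∈ J)).toNat = if k ∈ J then 1 else 0 := by
      intro k
      by_cases h : k ∈ J <;> simp [h]
    simp_rw [h0]
    rw [Finset.sum_ite_mem, Finset.univ_inter, Finset.card_eq_sum_ones]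
  have h2 := eleven_bool (decide (0 ∈ J)) (decide (1 ∈ J)) (decide (2 ∈ J)) (decide (3 ∈ J))
    (decide (4 ∈ J)) (decide (5 ∈ J)) (decide (6 ∈ J)) (decide (7 ∈ J)) (decide (8 ∈ J))
    (decide (9 ∈ J)) (decide (10 ∈ J))
  have h3 : ∀ p ∈ steps, (decide (p.1 ∈ J) && decide (p.2.1 ∈ J)) = false := by
    intro p hp
    have := hJ p hp
    rw [Bool.and_eq_false_iff, decide_eq_false_iff_not, decide_eq_false_iff_not]
    tauto
  have e_5_1 : (decide ((5 : Fin 11) ∈ J) && decide ((1 : Fin 11) ∈ J)) = false :=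
    h3 (5, 1, {1, 3, 4}) (by simp [steps])
  have e_3_1 : (decide ((3 : Fin 11) ∈ J) && decide ((1 : Fin 11) ∈ J)) = false :=
    h3 (3, 1, {3, 4}) (by simp [steps])
  have e_8_1 : (decide ((8 : Fin 11) ∈ J) && decide ((1 : Fin 11) ∈ J)) = false :=
    h3 (8, 1, {0, 1, 3, 4}) (by simp [steps])
  have e_7_6 : (decide ((7 : Fin 11) ∈ J) && decide ((6 : Fin 11) ∈ J)) = false :=
    h3 (7, 6, {0, 1}) (by simp [steps])
  have e_10_6 : (decide ((10 : Fin 11) ∈ J) && decide ((6 : Fin 11) ∈ J)) = false :=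
    h3 (10, 6, {0, 1, 2}) (by simp [steps])
  have e_7_4 : (decide ((7 : Fin 11) ∈ J) && decide ((4 : Fin 11) ∈ J)) = false :=
    h3 (7, 4, {0, 1, 3}) (by simp [steps])
  have e_5_4 : (decide ((5 : Fin 11) ∈ J) && decide ((4 : Fin 11) ∈ J)) = false :=
    h3 (5, 4, {1, 3}) (by simp [steps])
  have e_9_0 : (decide ((9 : Fin 11) ∈ J) && decide ((0 : Fin 11) ∈ J)) = false :=
    h3 (9, 0, {1, 2, 3, 4}) (by simp [steps])
  have e_3_0 : (decide ((3 : Fin 11) ∈ J) && decide ((0 : Fin 11) ∈ J)) = false :=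
    h3 (3, 0, {2, 3, 4}) (by simp [steps])
  have e_8_7 : (decide ((8 : Fin 11) ∈ J) && decide ((7 : Fin 11) ∈ J)) = false :=
    h3 (8, 7, {0, 4}) (by simp [steps])
  have e_6_5 : (decide ((6 : Fin 11) ∈ J) && decide ((5 : Fin 11) ∈ J)) = false :=
    h3 (6, 5, {0, 3}) (by simp [steps])
  have e_9_5 : (decide ((9 : Fin 11) ∈ J) && decide ((5 : Fin 11) ∈ J)) = false :=
    h3 (9, 5, {1, 2}) (by simp [steps])
  have e_4_3 : (decide ((4 : Fin 11) ∈ J) && decide ((3 : Fin 11) ∈ J)) = false :=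
    h3 (4, 3, {1, 4}) (by simp [steps])
  have e_4_2 : (decide ((4 : Fin 11) ∈ J) && decide ((2 : Fin 11) ∈ J)) = false :=
    h3 (4, 2, {2, 3}) (by simp [steps])
  have e_9_2 : (decide ((9 : Fin 11) ∈ J) && decide ((2 : Fin 11) ∈ J)) = false :=
    h3 (9, 2, {1, 2, 3}) (by simp [steps])
  have e_10_2 : (decide ((10 : Fin 11) ∈ J) && decide ((2 : Fin 11) ∈ J)) = false :=
    h3 (10, 2, {0, 1, 2, 3}) (by simp [steps])
  rw [e_5_1, e_3_1, e_8_1, e_7_6, e_10_6, e_7_4, e_5_4, e_9_0, e_3_0, e_8_7, e_6_5, e_9_5, e_4_3, e_4_2, e_9_2, e_10_2] at h2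
  rw [h1]
  simp only [Bool.false_or, Bool.or_false, decide_eq_true_eq] at h2
  have h4 : ∑ k : Fin 11, (decide (k ∈ J)).toNat = (decide (0 ∈ J)).toNat +
      (decide (1 ∈ J)).toNat + (decide (2 ∈ J)).toNat + (decide (3 ∈ J)).toNat +
      (decide (4 ∈ J)).toNat + (decide (5 ∈ J)).toNat + (decide (6 ∈ J)).toNat +
      (decide (7 ∈ J)).toNat + (decide (8 ∈ J)).toNat + (decide (9 ∈ J)).toNat +
      (decide (10 ∈ J)).toNat := by
    simp only [Fin.sum_univ_succ, Fin.sum_univ_zero, add_zero, add_assoc]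
    rfl
  rw [h4]
  exact h2

/-- the weight -/
noncomputable def wt (H : SimpleGraph (Fin 5)) : ℝ := by
  classical exact ((univ.filter fun k : Fin 11 => pat k = H).card : ℝ)

theorem sum_wt (I : Finset (SimpleGraph (Fin 5))) [DecidablePred fun k : Fin 11 => pat k ∈ I] :
    ∑ H ∈ I, wt H = ((univ.filter fun k : Fin 11 => pat k ∈ I).card : ℝ) := by
  classical
  have h := Finset.card_eq_sum_card_fiberwise (f := pat)
    (s := univ.filter fun k : Fin 11 => pat k ∈ I) (t := I) (by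
      intro k hk
      exact (Finset.mem_filter.1 hk).2)
  rw [h]
  push_cast
  refine Finset.sum_congr rfl fun H hH => ?_
  rw [wt]
  norm_cast
  congr 1
  ext k
  simp only [Finset.mem_filter, Finset.mem_univ, true_and]
  constructor
  · intro h1
    exact ⟨h1 ▸ hH, h1⟩
  · exact fun h1 => h1.2

theorem sum_wt_univ : ∑ H, wt H = 11 := by
  classical
  rw [sum_wt]
  simp

theorem wt_indep (I : Finset (SimpleGraph (Fin 5))) (hI : Indep I) :
    ∑ H ∈ I, wt H ≤ 4 / 11 * ∑ H, wt H := by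
  classical
  rw [sum_wt_univ, sum_wt]
  have h : (univ.filter fun k : Fin 11 => pat k ∈ I).card ≤ 4 := by
    refine eleven_indep _ ?_
    rintro p hp ⟨h1, h2⟩
    exact hI _ (Finset.mem_filter.1 h1).2 _ (Finset.mem_filter.1 h2).2 (steps_spec p hp)
  have h2 : ((univ.filter fun k : Fin 11 => pat k ∈ I).card : ℝ) ≤ 4 := by exact_mod_cast h
  linarith

/-- Q1 for every `c > 4/11`. -/
theorem four_eleven (c : ℝ) (hc : 4 / 11 < c) :
    ∃ N : ℕ, ∀ n : ℕ, N ≤ n → ∀ F : Finset (SimpleGraph (Fin n)),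
      c * (2 : ℝ) ^ (n.choose 2) ≤ (F.card : ℝ) →
      ∃ G₁ ∈ F, ∃ G₂ ∈ F, CliqueStep G₁ G₂ := by
  refine density_of_pattern 5 wt (4 / 11) ?_ ?_ wt_indep c hc
  · intro H
    rw [wt]
    positivity
  · rw [sum_wt_univ]
    norm_num

end Pool.Agent.Lib.MP_b39aa3_co
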