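import Mathlib

/-!
Lower bound for the sum of the signs of a quadratic form over all subsets.
-/

set_option autoImplicit false

namespace Pool.Agent.Lib.MP_b39aa3_co

open Finset

section
variable {α : Type*} [DecidableEq α]

/-- a sign valued function on the subsets of `A` with constant second differences -/
structure Quad (A : Finset α) (f : Finset α → ℤ) (d : α → α → ℤ) : Prop where
  sign : ∀ S, f S = 1 ∨ f S = -1
  dsign : ∀ i j, d i j = 1 ∨ d i j = -1
  diff : ∀ i ∈ A, ∀ j ∈ A, i ≠ j → ∀ S ⊆ A, i ∉ S → j ∉ S →
    f S * f (insert i S) * f (insert j S) * f (insert i (insert j S)) = d i j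

omit [DecidableEq α] in
theorem sign_abs (f : Finset α → ℤ) (hf : ∀ S, f S = 1 ∨ f S = -1) (A : Finset α) :
    -(2 ^ A.card : ℤ) ≤ ∑ S ∈ A.powerset, f S := by
  have h : ∑ S ∈ A.powerset, (-1 : ℤ) ≤ ∑ S ∈ A.powerset, f S := by
    refine Finset.sum_le_sum fun S _ => ?_
    rcases hf S with h | h
    · rw [h]; norm_num
    · rw [h]
  refine le_trans (le_of_eq ?_) h
  rw [Finset.sum_const, Finset.card_powerset]
  simp

theorem mul_sign {a b : ℤ} (ha : a = 1 ∨ a = -1) (hb : b = 1 ∨ b = -1) :
    a * b = 1 ∨ a * b = -1 := by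
  rcases ha with rfl | rfl <;> rcases hb with rfl | rfl <;> norm_num

theorem sq_sign {a : ℤ} (ha : a = 1 ∨ a = -1) : a * a = 1 := by
  rcases ha with rfl | rfl <;> norm_num

/-- The sum of a character is nonnegative. -/
theorem char_sum (f : Finset α → ℤ) (hs : ∀ S, f S = 1 ∨ f S = -1) (h0 : f ∅ = 1)
    (A : Finset α)
    (hd : ∀ i ∈ A, ∀ j ∈ A, i ≠ j → ∀ S ⊆ A, i ∉ S → j ∉ S →
      f S * f (insert i S) * f (insert j S) * f (insert i (insert j S)) = 1) :
    0 ≤ ∑ S ∈ A.powerset, f S := by
  induction A using Finset.induction_on with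
  | empty => simp [h0]
  | insert i B hi ih =>
    have h1 : ∀ S : Finset α, S ⊆ B → f (insert i S) = f S * f {i} := by
      intro S
      induction S using Finset.induction_on with
      | empty => intro _; rw [h0]; simp
      | insert j T hj ihT =>
        intro hT
        have hjB : j ∈ B := hT (Finset.mem_insert_self _ _)
        have hTB : T ⊆ B := (Finset.subset_insert _ _).trans hT
        have hij : i ≠ j := fun h => hi (h ▸ hjB)
        have h2 := hd i (Finset.mem_insert_self _ _) j (Finset.mem_insert_of_mem hjB) hij T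
          (hTB.trans (Finset.subset_insert _ _)) (fun h => hi (hTB h)) hj
        rw [ihT hTB] at h2
        have e1 := sq_sign (hs T)
        have e2 := sq_sign (hs {i})
        have e3 := sq_sign (hs (insert j T))
        calc f (insert i (insert j T))
            = (f T * f T) * (f {i} * f {i}) * (f (insert j T) * f (insert j T)) *
                f (insert i (insert j T)) := by rw [e1, e2, e3]; ring
          _ = (f T * (f T * f {i}) * f (insert j T) * f (insert i (insert j T))) *
                (f (insert j T) * f {i}) := by ring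
          _ = f (insert j T) * f {i} := by rw [h2, one_mul]
    rw [Finset.sum_powerset_insert hi]
    have h2 : ∑ S ∈ B.powerset, f (insert i S) = (∑ S ∈ B.powerset, f S) * f {i} := by
      rw [Finset.sum_mul]
      exact Finset.sum_congr rfl fun S hS => h1 S (Finset.mem_powerset.1 hS)
    rw [h2]
    have h3 := ih (fun a ha b hb hab S hS1 hS2 hS3 => hd a (Finset.mem_insert_of_mem ha) b
      (Finset.mem_insert_of_mem hb) hab S (hS1.trans (Finset.subset_insert _ _)) hS2 hS3)
    rcases hs {i} with h4 | h4 <;> rw [h4] <;> linarith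

/-- the sign of the product form -/
def gg (a b : ℤ) : ℤ := if a = -1 ∧ b = -1 then -1 else 1

theorem gg_sign (a b : ℤ) : gg a b = 1 ∨ gg a b = -1 := by
  rw [gg]
  split_ifs <;> norm_num

theorem gg_diff : ∀ a b p q r s : ℤ, (a = 1 ∨ a = -1) → (b = 1 ∨ b = -1) → (p = 1 ∨ p = -1) →
    (q = 1 ∨ q = -1) → (r = 1 ∨ r = -1) → (s = 1 ∨ s = -1) →
    gg a b * gg (a * p) (b * q) * gg (a * r) (b * s) * gg (a * p * r) (b * q * s) =
      gg p s * gg q r := by
  rintro a b p q r s (rfl | rfl) (rfl | rfl) (rfl | rfl) (rfl | rfl) (rfl | rfl) (rfl | rfl) <;>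
    decide

theorem gg_sum : ∀ x a b : ℤ, (x = 1 ∨ x = -1) → (a = 1 ∨ a = -1) → (b = 1 ∨ b = -1) →
    x + x * a + x * b - x * a * b = 2 * (x * gg a b) := by
  rintro x a b (rfl | rfl) (rfl | rfl) (rfl | rfl) <;> decide

/-- the function after elimination of two elements -/
def pivot (f : Finset α → ℤ) (i j : α) (S : Finset α) : ℤ :=
  f S * gg (f S * f (insert i S)) (f S * f (insert j S))

theorem pivot_sum (A : Finset α) (f : Finset α → ℤ) (d : α → α → ℤ) (hf : Quad A f d) (i j : α)
    (hij : i ≠ j) (hd : d i j = -1) (B : Finset α) (hi : i ∉ B) (hj : j ∉ B)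
    (hA : A = insert i (insert j B)) :
    ∑ S ∈ A.powerset, f S = 2 * ∑ S ∈ B.powerset, pivot f i j S := by
  have hi' : i ∉ insert j B := by
    rw [Finset.mem_insert]
    tauto
  have hBA : B ⊆ A := by
    rw [hA]
    exact (Finset.subset_insert _ _).trans (Finset.subset_insert _ _)
  have hiA : i ∈ A := by rw [hA]; exact Finset.mem_insert_self _ _
  have hjA : j ∈ A := by rw [hA]; exact Finset.mem_insert_of_mem (Finset.mem_insert_self _ _)
  have key : ∀ S ∈ B.powerset, f S + f (insert i S) + f (insert j S) +
      f (insert i (insert j S)) = 2 * pivot f i j S := by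
    intro S hS
    have hSB := Finset.mem_powerset.1 hS
    have h1 := hf.diff i hiA j hjA hij S (hSB.trans hBA) (fun h => hi (hSB h))
      (fun h => hj (hSB h))
    rw [hd] at h1
    have e0 := sq_sign (hf.sign S)
    have e1 := sq_sign (hf.sign (insert i S))
    have e2 := sq_sign (hf.sign (insert j S))
    rw [pivot, ← gg_sum (f S) _ _ (hf.sign S) (mul_sign (hf.sign S) (hf.sign _))
      (mul_sign (hf.sign S) (hf.sign _))]
    have e3 : f (insert i (insert j S)) = -(f S * f (insert i S) * f (insert j S)) := by
      calc f (insert i (insert j S)) = (f S * f S) * (f (insert i S) * f (insert i S)) *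
            (f (insert j S) * f (insert j S)) * f (insert i (insert j S)) := by
            rw [e0, e1, e2]; ring
        _ = (f S * f (insert i S) * f (insert j S) * f (insert i (insert j S))) *
            (f S * f (insert i S) * f (insert j S)) := by ring
        _ = _ := by rw [h1]; ring
    rw [e3]
    have e4 : f S * (f S * f (insert i S)) = f (insert i S) := by
      rw [← mul_assoc, e0, one_mul]
    have e5 : f S * (f S * f (insert j S)) = f (insert j S) := by
      rw [← mul_assoc, e0, one_mul]
    rw [e4, e5]
    ring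
  rw [hA, Finset.sum_powerset_insert hi', Finset.sum_powerset_insert hj,
    Finset.sum_powerset_insert hj, Finset.mul_sum, ← Finset.sum_congr rfl key,
    Finset.sum_add_distrib, Finset.sum_add_distrib, Finset.sum_add_distrib]
  ring

theorem pivot_quad (A : Finset α) (f : Finset α → ℤ) (d : α → α → ℤ) (hf : Quad A f d) (i j : α)
    (B : Finset α) (hi : i ∉ B) (hj : j ∉ B) (hA : A = insert i (insert j B)) :
    Quad B (pivot f i j) fun k l => d k l * (gg (d i k) (d j l) * gg (d j k) (d i l)) := by
  have hBA : B ⊆ A := by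
    rw [hA]
    exact (Finset.subset_insert _ _).trans (Finset.subset_insert _ _)
  have hiA : i ∈ A := by rw [hA]; exact Finset.mem_insert_self _ _
  have hjA : j ∈ A := by rw [hA]; exact Finset.mem_insert_of_mem (Finset.mem_insert_self _ _)
  refine ⟨fun S => mul_sign (hf.sign S) (gg_sign _ _), fun k l => mul_sign (hf.dsign k l)
    (mul_sign (gg_sign _ _) (gg_sign _ _)), ?_⟩
  intro k hk l hl hkl S hS hkS hlS
  -- first differences
  have hstep : ∀ x ∈ A, x ∉ B → ∀ m ∈ B, ∀ T ⊆ B, m ∉ T →
      f (insert m T) * f (insert x (insert m T)) = f T * f (insert x T) * d x m := by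
    intro x hx hxB m hm T hT hmT
    have hxm : x ≠ m := fun h => hxB (h ▸ hm)
    have h1 := hf.diff x hx m (hBA hm) hxm T (hT.trans hBA) (fun h => hxB (hT h)) hmT
    have e0 := sq_sign (hf.sign T)
    have e1 := sq_sign (hf.sign (insert x T))
    rw [← h1]
    calc f (insert m T) * f (insert x (insert m T))
        = (f T * f T) * (f (insert x T) * f (insert x T)) *
            (f (insert m T) * f (insert x (insert m T))) := by rw [e0, e1]; ring
      _ = _ := by ring
  have hlk : l ∉ insert k S := by
    rw [Finset.mem_insert]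
    rintro (h | h)
    · exact hkl h.symm
    · exact hlS h
  have hkl' : k ∉ insert l S := by
    rw [Finset.mem_insert]
    rintro (h | h)
    · exact hkl h
    · exact hkS h
  have hlB : insert l S ⊆ B := Finset.insert_subset hl hS
  have a1 := hstep i hiA hi k hk S hS hkS
  have a2 := hstep i hiA hi l hl S hS hlS
  have a3 := hstep i hiA hi k hk (insert l S) hlB hkl'
  have b1 := hstep j hjA hj k hk S hS hkS
  have b2 := hstep j hjA hj l hl S hS hlS
  have b3 := hstep j hjA hj k hk (insert l S) hlB hkl'
  rw [a2] at a3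
  rw [b2] at b3
  have hd := hf.diff k (hBA hk) l (hBA hl) hkl S (hS.trans hBA) hkS hlS
  have hg := gg_diff (f S * f (insert i S)) (f S * f (insert j S)) (d i l) (d j l) (d i k)
    (d j k) (mul_sign (hf.sign _) (hf.sign _)) (mul_sign (hf.sign _) (hf.sign _))
    (hf.dsign _ _) (hf.dsign _ _) (hf.dsign _ _) (hf.dsign _ _)
  change pivot f i j S * pivot f i j (insert k S) * pivot f i j (insert l S) *
    pivot f i j (insert k (insert l S)) = _
  simp only [pivot]
  rw [a1, b1, a2, b2, a3, b3, ← hd]
  have e : gg (d i k) (d j l) * gg (d j k) (d i l) = gg (d i l) (d j k) * gg (d j l) (d i k) := by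
    have h1 : ∀ a b, gg a b = gg b a := by
      intro a b
      rw [gg, gg]
      congr 1
      exact propext and_comm
    rw [h1 (d i k), h1 (d j k)]
    ring
  rw [e, ← hg]
  ring

/-- The Gauss sum bound: four times the sum over all subsets is at least minus the number of
subsets. -/
theorem gauss_bound (A : Finset α) (f : Finset α → ℤ) (d : α → α → ℤ) (hf : Quad A f d)
    (h0 : f ∅ = 1) (h1 : ∀ i, f {i} = 1) : -(2 ^ A.card : ℤ) ≤ 4 * ∑ S ∈ A.powerset, f S := by
  by_cases hp : ∃ i ∈ A, ∃ j ∈ A, i ≠ j ∧ d i j = -1
  · obtain ⟨i, hi, j, hj, hij, hd⟩ := hp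
    set B := (A.erase i).erase j with hB
    have hjB : j ∉ B := Finset.notMem_erase _ _
    have hiB : i ∉ B := fun h => Finset.notMem_erase i A (Finset.mem_of_mem_erase h)
    have hjA : j ∈ A.erase i := Finset.mem_erase.2 ⟨hij.symm, hj⟩
    have hA : A = insert i (insert j B) := by
      rw [hB, Finset.insert_erase hjA, Finset.insert_erase hi]
    have hcard : A.card = B.card + 2 := by
      conv_lhs => rw [hA]
      rw [Finset.card_insert_of_notMem, Finset.card_insert_of_notMem hjB]
      rw [Finset.mem_insert]
      tauto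
    have hq := pivot_quad A f d hf i j B hiB hjB hA
    have hs := pivot_sum A f d hf i j hij hd B hiB hjB hA
    rw [hs]
    by_cases hp2 : ∃ k ∈ B, ∃ l ∈ B, k ≠ l ∧
        d k l * (gg (d i k) (d j l) * gg (d j k) (d i l)) = -1
    · obtain ⟨k, hk, l, hl, hkl, hd2⟩ := hp2
      set C := (B.erase k).erase l with hC
      have hlC : l ∉ C := Finset.notMem_erase _ _
      have hkC : k ∉ C := fun h => Finset.notMem_erase k B (Finset.mem_of_mem_erase h)
      have hlB : l ∈ B.erase k := Finset.mem_erase.2 ⟨hkl.symm, hl⟩
      have hBC : B = insert k (insert l C) := by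
        rw [hC, Finset.insert_erase hlB, Finset.insert_erase hk]
      have hcard2 : B.card = C.card + 2 := by
        conv_lhs => rw [hBC]
        rw [Finset.card_insert_of_notMem, Finset.card_insert_of_notMem hlC]
        rw [Finset.mem_insert]
        tauto
      have hs2 := pivot_sum B (pivot f i j) _ hq k l hkl hd2 C hkC hlC hBC
      rw [hs2]
      have hq2 := pivot_quad B (pivot f i j) _ hq k l C hkC hlC hBC
      have h3 := sign_abs (pivot (pivot f i j) k l) hq2.sign C
      rw [hcard, hcard2]
      have e : (2 : ℤ) ^ (C.card + 2 + 2) = 16 * 2 ^ C.card := by ring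
      rw [e]
      linarith
    · push Not at hp2
      have h2 : 0 ≤ ∑ S ∈ B.powerset, pivot f i j S := by
        refine char_sum _ hq.sign ?_ B ?_
        · have h3 := hf.diff i hi j hj hij ∅ (Finset.empty_subset _) (Finset.notMem_empty _)
            (Finset.notMem_empty _)
          have h4 : f (insert i ∅) = 1 := h1 i
          have h5 : f (insert j ∅) = 1 := h1 j
          rw [pivot, h4, h5, h0]
          decide
        · intro k hk l hl hkl S hS hkS hlS
          rw [hq.diff k hk l hl hkl S hS hkS hlS]
          exact (hq.dsign k l).resolve_right (hp2 k hk l hl hkl)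
      have h3 : (0 : ℤ) ≤ 2 ^ A.card := by positivity
      linarith
  · push Not at hp
    have h2 : 0 ≤ ∑ S ∈ A.powerset, f S := by
      refine char_sum _ hf.sign h0 A ?_
      intro k hk l hl hkl S hS hkS hlS
      rw [hf.diff k hk l hl hkl S hS hkS hlS]
      exact (hf.dsign k l).resolve_right (hp k hk l hl hkl)
    have h3 : (0 : ℤ) ≤ 2 ^ A.card := by positivity
    linarith

end

end Pool.Agent.Lib.MP_b39aa3_co
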