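import Mathlib

/-!
The finite Ramsey theorem for hypergraphs, and a simultaneous version for all small sizes.
-/

set_option autoImplicit false

namespace Pool.Agent.Lib.MP_b39aa3_co

open Finset

/-- finite Ramsey theorem for `p`-sets, off-diagonal in the colours -/
theorem ramsey_aux (Q : Type) [Fintype Q] [DecidableEq Q] [Nonempty Q] (p : ℕ) :
    ∀ ρ : Q → ℕ, ∃ N : ℕ, ∀ (α : Type) [DecidableEq α] (X : Finset α), N ≤ X.card →
      ∀ f : Finset α → Q, ∃ q, ∃ Y ⊆ X, Y.card = ρ q ∧ ∀ A ⊆ Y, A.card = p → f A = q := by
  induction p with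
  | zero =>
    intro ρ
    refine ⟨∑ q, ρ q, ?_⟩
    intro α _ X hX f
    have h1 : ρ (f ∅) ≤ X.card := le_trans (Finset.single_le_sum (f := ρ) (fun _ _ => Nat.zero_le _)
      (Finset.mem_univ _)) hX
    obtain ⟨Y, hY, hYc⟩ := Finset.exists_subset_card_eq h1
    refine ⟨f ∅, Y, hY, hYc, ?_⟩
    intro A _ hA
    rw [Finset.card_eq_zero.1 hA]
  | succ p ih =>
    -- induction on the sum of the `ρ q`
    have key : ∀ n, ∀ ρ : Q → ℕ, ∑ q, ρ q = n → ∃ N : ℕ, ∀ (α : Type) [DecidableEq α]
        (X : Finset α), N ≤ X.card → ∀ f : Finset α → Q, ∃ q, ∃ Y ⊆ X, Y.card = ρ q ∧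
          ∀ A ⊆ Y, A.card = p + 1 → f A = q := by
      intro n
      induction n with
      | zero =>
        intro ρ hρ
        obtain ⟨q0⟩ := (inferInstance : Nonempty Q)
        refine ⟨0, fun α _ X _ f => ⟨q0, ∅, Finset.empty_subset _, ?_, ?_⟩⟩
        · have := Finset.sum_eq_zero_iff.1 hρ q0 (Finset.mem_univ _)
          simp [this]
        · intro A hA hA'
          rw [Finset.subset_empty.1 hA] at hA'
          simp at hA'
      | succ n ihn =>
        intro ρ hρ
        by_cases h0 : ∃ q, ρ q = 0
        · obtain ⟨q0, hq0⟩ := h0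
          refine ⟨0, fun α _ X _ f => ⟨q0, ∅, Finset.empty_subset _, by simp [hq0], ?_⟩⟩
          intro A hA hA'
          rw [Finset.subset_empty.1 hA] at hA'
          simp at hA'
        · push Not at h0
          have hsum : ∀ q, ∑ q', Function.update ρ q (ρ q - 1) q' = n := by
            intro q
            have h1 := Finset.sum_update_of_mem (Finset.mem_univ q) ρ (ρ q - 1)
            have h2 := Finset.add_sum_erase Finset.univ ρ (Finset.mem_univ q)
            rw [h1]
            have h3 : ∑ x ∈ univ \ {q}, ρ x = ∑ x ∈ univ.erase q, ρ x := by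
              rw [Finset.sdiff_singleton_eq_erase]
            have h4 := h0 q
            omega
          choose Nq hNq using fun q => ihn _ (hsum q)
          obtain ⟨M, hM⟩ := ih (fun _ => Finset.univ.sup Nq)
          refine ⟨M + 1, ?_⟩
          intro α _ X hX f
          have hXne : X.Nonempty := by
            rw [← Finset.card_pos]; omega
          obtain ⟨x, hx⟩ := hXne
          have hcard : (X.erase x).card = X.card - 1 := Finset.card_erase_of_mem hx
          obtain ⟨q, Y, hYX, hYc, hY⟩ := hM α (X.erase x) (by omega) (fun A => f (insert x A))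
          have hle : Nq q ≤ Y.card := by rw [hYc]; exact Finset.le_sup (Finset.mem_univ q)
          obtain ⟨q', Z, hZY, hZc, hZ⟩ := hNq q α Y hle f
          have hZX : Z ⊆ X := hZY.trans (hYX.trans (Finset.erase_subset _ _))
          by_cases hqq : q' = q
          · subst hqq
            have hxZ : x ∉ Z := fun h => by
              have := hYX (hZY h)
              simp at this
            refine ⟨q', insert x Z, ?_, ?_, ?_⟩
            · exact Finset.insert_subset hx hZX
            · rw [Finset.card_insert_of_notMem hxZ, hZc, Function.update_self]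
              have := h0 q'
              omega
            · intro A hA hAc
              by_cases hxA : x ∈ A
              · have h1 : A.erase x ⊆ Y := by
                  intro y hy
                  have h2 := hA (Finset.mem_of_mem_erase hy)
                  rcases Finset.mem_insert.1 h2 with h3 | h3
                  · exact absurd h3 (Finset.ne_of_mem_erase hy)
                  · exact hZY h3
                have h2 := hY (A.erase x) h1 (by rw [Finset.card_erase_of_mem hxA, hAc]; rfl)
                simpa [Finset.insert_erase hxA] using h2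
              · refine hZ A ?_ hAc
                intro y hy
                rcases Finset.mem_insert.1 (hA hy) with h3 | h3
                · exact absurd (h3 ▸ hy) hxA
                · exact h3
          · refine ⟨q', Z, hZX, ?_, hZ⟩
            rw [hZc, Function.update_of_ne hqq]
    intro ρ
    exact key _ ρ rfl

/-- Simultaneous homogeneity for all sizes up to `D`. -/
theorem ramsey_all (Q : Type) [Finite Q] [Nonempty Q] (D L : ℕ) :
    ∃ N : ℕ, ∀ (α : Type) (X : Finset α), N ≤ X.card →
      ∀ f : Finset α → Q, ∃ g : ℕ → Q, ∃ Y ⊆ X, Y.card = L ∧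
        ∀ A ⊆ Y, A.card ≤ D → f A = g A.card := by
  classical
  have := Fintype.ofFinite Q
  induction D generalizing L with
  | zero =>
    refine ⟨L, fun α X hX f => ?_⟩
    obtain ⟨Y, hY, hYc⟩ := Finset.exists_subset_card_eq hX
    refine ⟨fun _ => f ∅, Y, hY, hYc, fun A _ hA => ?_⟩
    rw [Finset.card_eq_zero.1 (Nat.le_zero.1 hA)]
  | succ D ih =>
    obtain ⟨N1, hN1⟩ := ramsey_aux Q (D + 1) (fun _ => L)
    obtain ⟨N, hN⟩ := ih N1
    refine ⟨N, fun α X hX f => ?_⟩
    obtain ⟨g, Y, hY, hYc, hg⟩ := hN α X hX f
    obtain ⟨q, Z, hZ, hZc, hq⟩ := hN1 α Y hYc.ge f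
    refine ⟨fun t => if t ≤ D then g t else q, Z, hZ.trans hY, hZc, fun A hA hAc => ?_⟩
    by_cases h : A.card ≤ D
    · simp only [h, if_true]
      exact hg A (hA.trans hZ) h
    · simp only [h, if_false]
      exact hq A hA (by omega)

end Pool.Agent.Lib.MP_b39aa3_co
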