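import Pool.Agent.Lib.MP_b39aa3_co.Weak
import Pool.Agent.Lib.MP_b39aa3_co.Ramsey

/-!
Recurrence of polynomials in the edges along cliques.
-/

set_option autoImplicit false
set_option linter.unusedSectionVars false

namespace Pool.Agent.Lib.MP_b39aa3_co

open scoped symmDiff
open Finset

open scoped Classical in
/-- `P` is a polynomial of degree at most `d` in the edge indicators, with coefficients in the
abelian group `Γ`: `P G` is the sum of the coefficients `c A` over the sets `A` of at most `d`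
edges of `G`. -/
def IsPoly {V Γ : Type} [Fintype V] [AddCommGroup Γ] (d : ℕ) (P : SimpleGraph V → Γ) : Prop :=
  ∃ c : Finset (Sym2 V) → Γ, ∀ G : SimpleGraph V,
    P G = ∑ A ∈ (univ : Finset (Finset (Sym2 V))).filter
      (fun A => A.card ≤ d ∧ ∀ e ∈ A, e ∈ G.edgeSet), c A

theorem choose_dvd (g D L t : ℕ) (hL : L = g * (2 * D.factorial)) (h0 : 1 ≤ t) (ht : t ≤ D) :
    g ∣ L.choose t := by
  obtain ⟨k, hk⟩ := Nat.dvd_factorial h0 ht
  rcases Nat.eq_zero_or_pos L with hz | hz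
  · rw [hz, Nat.choose_eq_zero_of_lt (by omega)]
    exact dvd_zero _
  · obtain ⟨s, rfl⟩ : ∃ s, t = s + 1 := ⟨t - 1, by omega⟩
    obtain ⟨M, rfl⟩ : ∃ M, L = M + 1 := ⟨L - 1, by omega⟩
    have h1 := Nat.add_one_mul_choose_eq M s
    have h2 : (s + 1) * (g * (2 * k) * M.choose s) = (s + 1) * (M + 1).choose (s + 1) := by
      rw [mul_comm (s + 1) ((M + 1).choose (s + 1)), ← h1, hL, hk]
      ring
    have h3 := Nat.eq_of_mul_eq_mul_left (Nat.succ_pos s) h2
    rw [← h3]
    exact ⟨2 * k * M.choose s, by ring⟩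

section
variable {V Γ : Type} [Fintype V] [DecidableEq V] [AddCommGroup Γ]

open scoped Classical in
/-- the vertices of the new edges of `A` -/
noncomputable def tau (G : SimpleGraph V) (A : Finset (Sym2 V)) : Finset V :=
  univ.filter fun v => ∃ e ∈ A, e ∉ G.edgeSet ∧ v ∈ e

theorem tau_card (G : SimpleGraph V) (A : Finset (Sym2 V)) : (tau G A).card ≤ 2 * A.card := by
  classical
  have h1 : tau G A ⊆ A.biUnion fun e => univ.filter fun v => v ∈ e := by
    intro v hv
    obtain ⟨e, he, -, hve⟩ := (Finset.mem_filter.1 hv).2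
    exact Finset.mem_biUnion.2 ⟨e, he, Finset.mem_filter.2 ⟨Finset.mem_univ _, hve⟩⟩
  refine (Finset.card_le_card h1).trans ?_
  refine (Finset.card_biUnion_le_card_mul _ _ 2 fun e _ => ?_).trans_eq (mul_comm _ _)
  induction e using Sym2.ind with
  | _ a b =>
    have h2 : (univ.filter fun v => v ∈ s(a, b)) ⊆ {a, b} := by
      intro v hv
      have := (Finset.mem_filter.1 hv).2
      rw [Sym2.mem_iff] at this
      rw [Finset.mem_insert, Finset.mem_singleton]
      exact this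
    exact (Finset.card_le_card h2).trans Finset.card_le_two

theorem mem_edgeSet_sup_clique (G : SimpleGraph V) (S : Finset V) (e : Sym2 V) :
    e ∈ (G ⊔ cliqueGraph S).edgeSet ↔ e ∈ G.edgeSet ∨ (¬ e.IsDiag ∧ ∀ v ∈ e, v ∈ S) := by
  induction e using Sym2.ind with
  | _ a b =>
    change (G ⊔ cliqueGraph S).Adj a b ↔ G.Adj a b ∨ _
    rw [SimpleGraph.sup_adj]
    refine or_congr_right ?_
    change (a ∈ S ∧ b ∈ S ∧ a ≠ b) ↔ _
    rw [Sym2.mk_isDiag_iff]
    constructor
    · rintro ⟨h1, h2, h3⟩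
      refine ⟨h3, fun v hv => ?_⟩
      rcases Sym2.mem_iff.1 hv with rfl | rfl
      · exact h1
      · exact h2
    · rintro ⟨h1, h2⟩
      exact ⟨h2 a (Sym2.mem_mk_left _ _), h2 b (Sym2.mem_mk_right _ _), h1⟩

theorem sub_iff (G : SimpleGraph V) (S : Finset V) (A : Finset (Sym2 V)) :
    (∀ e ∈ A, e ∈ (G ⊔ cliqueGraph S).edgeSet) ↔ (∀ e ∈ A, ¬ e.IsDiag) ∧ tau G A ⊆ S := by
  classical
  constructor
  · intro h
    constructor
    · intro e he hd
      rcases (mem_edgeSet_sup_clique G S e).1 (h e he) with h1 | h1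
      · exact G.not_isDiag_of_mem_edgeSet h1 hd
      · exact h1.1 hd
    · intro v hv
      obtain ⟨e, he, h1, h2⟩ := (Finset.mem_filter.1 hv).2
      rcases (mem_edgeSet_sup_clique G S e).1 (h e he) with h3 | h3
      · exact (h1 h3).elim
      · exact h3.2 v h2
  · rintro ⟨h1, h2⟩ e he
    rw [mem_edgeSet_sup_clique]
    by_cases h3 : e ∈ G.edgeSet
    · exact Or.inl h3
    · exact Or.inr ⟨h1 e he, fun v hv => h2 (Finset.mem_filter.2
        ⟨Finset.mem_univ _, e, he, h3, hv⟩)⟩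

/-- Expansion along cliques. -/
theorem poly_expand (d : ℕ) (P : SimpleGraph V → Γ) (hP : IsPoly d P) (G : SimpleGraph V) :
    ∃ q : Finset V → Γ, (∀ T, 2 * d < T.card → q T = 0) ∧
      ∀ S, P (G ⊔ cliqueGraph S) = ∑ T ∈ S.powerset, q T := by
  classical
  obtain ⟨c, hc⟩ := hP
  refine ⟨fun T => ∑ A ∈ (univ : Finset (Finset (Sym2 V))).filter
    (fun A => (A.card ≤ d ∧ ∀ e ∈ A, ¬ e.IsDiag) ∧ tau G A = T), c A, ?_, ?_⟩
  · intro T hT
    refine Finset.sum_eq_zero fun A hA => ?_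
    exfalso
    obtain ⟨⟨h1, -⟩, h2⟩ := (Finset.mem_filter.1 hA).2
    have := tau_card G A
    rw [h2] at this
    omega
  · intro S
    rw [hc]
    have h1 : (univ : Finset (Finset (Sym2 V))).filter
        (fun A => A.card ≤ d ∧ ∀ e ∈ A, e ∈ (G ⊔ cliqueGraph S).edgeSet) =
        (univ : Finset (Finset (Sym2 V))).filter
        (fun A => (A.card ≤ d ∧ ∀ e ∈ A, ¬ e.IsDiag) ∧ tau G A ∈ S.powerset) := by
      ext A
      rw [Finset.mem_filter, Finset.mem_filter, sub_iff, Finset.mem_powerset]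
      tauto
    have h2 := Finset.sum_fiberwise_of_maps_to (s := (univ : Finset (Finset (Sym2 V))).filter
        (fun A => (A.card ≤ d ∧ ∀ e ∈ A, ¬ e.IsDiag) ∧ tau G A ∈ S.powerset))
        (t := S.powerset) (g := tau G) (fun A hA => (Finset.mem_filter.1 hA).2.2) c
    have h3 : ∑ A ∈ (univ : Finset (Finset (Sym2 V))).filter
        (fun A => A.card ≤ d ∧ ∀ e ∈ A, e ∈ (G ⊔ cliqueGraph S).edgeSet), c A =
        ∑ A ∈ (univ : Finset (Finset (Sym2 V))).filter
        (fun A => (A.card ≤ d ∧ ∀ e ∈ A, ¬ e.IsDiag) ∧ tau G A ∈ S.powerset), c A := by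
      rw [h1]
    refine Eq.trans ?_ (h3.trans (h2.symm.trans ?_))
    · refine Finset.sum_congr ?_ fun _ _ => rfl
      ext A
      simp
    · refine Finset.sum_congr rfl fun T hT => ?_
      refine Finset.sum_congr ?_ fun _ _ => rfl
      ext A
      rw [Finset.mem_filter, Finset.mem_filter, Finset.mem_filter]
      constructor
      · rintro ⟨⟨h4, h5, h6⟩, h7⟩
        exact ⟨h4, h5, h7⟩
      · rintro ⟨h4, h5, h6⟩
        exact ⟨⟨h4, h5, h6 ▸ hT⟩, h6⟩

end

/-- Recurrence: a large vertex set contains a clique along which a polynomial returns. -/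
theorem recurrence (Γ : Type) [AddCommGroup Γ] [Finite Γ] (d : ℕ) :
    ∃ M : ℕ, 2 ≤ M ∧ ∀ (V : Type) [Fintype V] [DecidableEq V] (P : SimpleGraph V → Γ),
      IsPoly d P → ∀ (G : SimpleGraph V) (I : Finset V), M ≤ I.card →
      ∃ S ⊆ I, 2 ≤ S.card ∧ P (G ⊔ cliqueGraph S) = P G := by
  classical
  have hg : 0 < Nat.card Γ := Nat.card_pos
  set L : ℕ := Nat.card Γ * (2 * (2 * d).factorial) with hL
  have hL2 : 2 ≤ L := by
    have := Nat.factorial_pos (2 * d)
    have h1 : 1 * (2 * 1) ≤ Nat.card Γ * (2 * (2 * d).factorial) :=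
      Nat.mul_le_mul hg (Nat.mul_le_mul_left 2 this)
    omega
  obtain ⟨N, hN⟩ := ramsey_all Γ (2 * d) L
  refine ⟨max N 2, le_max_right _ _, fun V _ _ P hP G I hI => ?_⟩
  obtain ⟨q, hq0, hq⟩ := poly_expand d P hP G
  obtain ⟨g, S, hSI, hSc, hgS⟩ := hN V I ((le_max_left _ _).trans hI) q
  refine ⟨S, hSI, by omega, ?_⟩
  have h0 : P G = q ∅ := by
    have h1 := hq ∅
    rw [cliqueGraph_small ∅ (by simp), sup_bot_eq] at h1
    rw [h1]
    simp
  rw [hq, h0, Finset.sum_powerset]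
  have h1 : ∀ t ∈ Finset.range (S.card + 1), t ≠ 0 → ∑ T ∈ S.powersetCard t, q T = 0 := by
    intro t ht ht0
    by_cases h2 : t ≤ 2 * d
    · have h3 : ∀ T ∈ S.powersetCard t, q T = g t := by
        intro T hT
        obtain ⟨h4, h5⟩ := Finset.mem_powersetCard.1 hT
        rw [hgS T h4 (by omega), h5]
      rw [Finset.sum_congr rfl h3, Finset.sum_const, Finset.card_powersetCard, hSc]
      obtain ⟨k, hk⟩ := choose_dvd (Nat.card Γ) (2 * d) L t hL (by omega) h2
      rw [hk, mul_comm, mul_nsmul, card_nsmul_eq_zero']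
    · refine Finset.sum_eq_zero fun T hT => hq0 T ?_
      rw [(Finset.mem_powersetCard.1 hT).2]
      omega
  rw [Finset.sum_eq_single 0 h1]
  · simp
  · intro h
    exact (h (by simp)).elim

end Pool.Agent.Lib.MP_b39aa3_co
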