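import Pool.Agent.Lib.MP_b39aa3_co.Robust

/-!
Large families of graphs without clique steps: graphs without large independent sets, and the
number of edges modulo a power of two.
-/

set_option autoImplicit false

namespace Pool.Agent.Lib.MP_b39aa3_co

open scoped symmDiff
open Finset

open scoped Classical in
/-- graphs on `Fin n` with an empty pattern on the image of `f` -/
theorem card_empty_on {n M : ℕ} (f : Fin M ↪ Fin n) :
    (((univ.filter fun G : SimpleGraph (Fin n) => G.comap f = ⊥).card : ℕ) : ℝ) *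
      2 ^ (M.choose 2) = 2 ^ (n.choose 2) := by
  have h := plant_card f (⊥ : SimpleGraph (Fin M)) (univ : Finset (SimpleGraph (Fin n)))
  rw [← Finset.sum_filter, Finset.sum_const, nsmul_eq_mul, mul_one] at h
  have h1 : (univ.filter fun G : SimpleGraph (Fin n) => plant f G ⊥ ∈
      (univ : Finset (SimpleGraph (Fin n)))) = univ := by
    ext G
    simp
  rw [h1, Finset.card_univ, card_graph, card_graph, Fintype.card_fin, Fintype.card_fin] at h
  push_cast at h
  linarith

/-- some `M` vertices are independent in `G` -/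
def HasIndep {n : ℕ} (M : ℕ) (G : SimpleGraph (Fin n)) : Prop :=
  ∃ S : Finset (Fin n), S.card = M ∧ ∀ u ∈ S, ∀ v ∈ S, ¬ G.Adj u v

open scoped Classical in
theorem card_hasIndep (n M : ℕ) :
    (((univ.filter fun G : SimpleGraph (Fin n) => HasIndep M G).card : ℕ) : ℝ) *
      2 ^ (M.choose 2) ≤ (n.choose M : ℝ) * 2 ^ (n.choose 2) := by
  have hsub : (univ.filter fun G : SimpleGraph (Fin n) => HasIndep M G) ⊆
      (Finset.powersetCard M (univ : Finset (Fin n))).attach.biUnion fun S =>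
        univ.filter fun G : SimpleGraph (Fin n) =>
          G.comap (S.1.orderEmbOfFin (Finset.mem_powersetCard.1 S.2).2).toEmbedding = ⊥ := by
    intro G hG
    obtain ⟨S, hS, hI⟩ := (Finset.mem_filter.1 hG).2
    have hmem : S ∈ Finset.powersetCard M (univ : Finset (Fin n)) :=
      Finset.mem_powersetCard.2 ⟨Finset.subset_univ _, hS⟩
    refine Finset.mem_biUnion.2 ⟨⟨S, hmem⟩, Finset.mem_attach _ _, ?_⟩
    refine Finset.mem_filter.2 ⟨Finset.mem_univ _, ?_⟩
    ext u v
    rw [SimpleGraph.comap_adj]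
    constructor
    · intro h
      exact hI _ (Finset.orderEmbOfFin_mem _ _ _) _ (Finset.orderEmbOfFin_mem _ _ _) h
    · intro h
      exact h.elim
  have h1 := (Finset.card_le_card hsub).trans Finset.card_biUnion_le
  have h2 : (((univ.filter fun G : SimpleGraph (Fin n) => HasIndep M G).card : ℕ) : ℝ) ≤
      ∑ S ∈ (Finset.powersetCard M (univ : Finset (Fin n))).attach,
        (((univ.filter fun G : SimpleGraph (Fin n) =>
          G.comap (S.1.orderEmbOfFin (Finset.mem_powersetCard.1 S.2).2).toEmbedding = ⊥).card : ℕ)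
            : ℝ) := by
    exact_mod_cast h1
  calc (((univ.filter fun G : SimpleGraph (Fin n) => HasIndep M G).card : ℕ) : ℝ) *
      2 ^ (M.choose 2) ≤ (∑ S ∈ (Finset.powersetCard M (univ : Finset (Fin n))).attach,
        (((univ.filter fun G : SimpleGraph (Fin n) =>
          G.comap (S.1.orderEmbOfFin (Finset.mem_powersetCard.1 S.2).2).toEmbedding = ⊥).card : ℕ)
            : ℝ)) * 2 ^ (M.choose 2) := by
        exact mul_le_mul_of_nonneg_right h2 (by positivity)
    _ = ∑ S ∈ (Finset.powersetCard M (univ : Finset (Fin n))).attach,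
        ((2 : ℝ) ^ (n.choose 2)) := by
        rw [Finset.sum_mul]
        exact Finset.sum_congr rfl fun S _ => card_empty_on _
    _ = (n.choose M : ℝ) * 2 ^ (n.choose 2) := by
        rw [Finset.sum_const, Finset.card_attach, Finset.card_powersetCard, Finset.card_univ,
          Fintype.card_fin, nsmul_eq_mul]

open scoped Classical in
theorem card_hasIndep_le (n M : ℕ) (h : n ^ 2 ≤ 2 ^ (M - 1)) :
    (((univ.filter fun G : SimpleGraph (Fin n) => HasIndep M G).card : ℕ) : ℝ) * (M.factorial : ℝ)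
      ≤ 2 ^ (n.choose 2) := by
  have h1 := card_hasIndep n M
  have h2 : n ^ M ≤ 2 ^ (M.choose 2) := by
    have h3 : (n ^ M) ^ 2 ≤ (2 ^ (M.choose 2)) ^ 2 := by
      calc (n ^ M) ^ 2 = (n ^ 2) ^ M := by rw [← pow_mul, ← pow_mul, mul_comm]
        _ ≤ (2 ^ (M - 1)) ^ M := Nat.pow_le_pow_left h M
        _ = (2 ^ (M.choose 2)) ^ 2 := by
          rw [← pow_mul, ← pow_mul]
          congr 1
          have := Nat.triangle_succ (M - 1)
          have h5 : (M.choose 2) * 2 = M * (M - 1) := by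
            rw [Nat.choose_two_right]
            exact Nat.div_mul_cancel (Nat.even_mul_pred_self M).two_dvd
          rw [h5, mul_comm]
    exact le_of_pow_le_pow_left₀ (by norm_num) (by positivity) h3
  have h4 : (n.choose M) * M.factorial ≤ 2 ^ (M.choose 2) := by
    have h5 : (n.choose M) * M.factorial = n.descFactorial M := by
      rw [Nat.descFactorial_eq_factorial_mul_choose, mul_comm]
    rw [h5]
    exact (Nat.descFactorial_le_pow n M).trans h2
  have h6 : (n.choose M : ℝ) * (M.factorial : ℝ) ≤ 2 ^ (M.choose 2) := by exact_mod_cast h4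
  have hp : (0 : ℝ) < 2 ^ (M.choose 2) := by positivity
  have hq : (0 : ℝ) < 2 ^ (n.choose 2) := by positivity
  have hf : (0 : ℝ) < (M.factorial : ℝ) := by exact_mod_cast Nat.factorial_pos M
  have h7 : (((univ.filter fun G : SimpleGraph (Fin n) => HasIndep M G).card : ℕ) : ℝ) *
      (M.factorial : ℝ) * 2 ^ (M.choose 2) ≤ 2 ^ (n.choose 2) * 2 ^ (M.choose 2) := by
    calc (((univ.filter fun G : SimpleGraph (Fin n) => HasIndep M G).card : ℕ) : ℝ) *
        (M.factorial : ℝ) * 2 ^ (M.choose 2)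
        = ((((univ.filter fun G : SimpleGraph (Fin n) => HasIndep M G).card : ℕ) : ℝ) *
          2 ^ (M.choose 2)) * (M.factorial : ℝ) := by ring
      _ ≤ ((n.choose M : ℝ) * 2 ^ (n.choose 2)) * (M.factorial : ℝ) :=
          mul_le_mul_of_nonneg_right h1 hf.le
      _ = ((n.choose M : ℝ) * (M.factorial : ℝ)) * 2 ^ (n.choose 2) := by ring
      _ ≤ 2 ^ (M.choose 2) * 2 ^ (n.choose 2) := mul_le_mul_of_nonneg_right h6 hq.le
      _ = _ := by ring
  exact le_of_mul_le_mul_right h7 hp

open scoped Classical in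
/-- the number of edges -/
noncomputable def edges {n : ℕ} (G : SimpleGraph (Fin n)) : ℕ := G.edgeFinset.card

open scoped Classical in
theorem edges_step {n : ℕ} (G₁ G₂ : SimpleGraph (Fin n)) (h : G₂ ≤ G₁) (S : Finset (Fin n))
    (hS : ∀ u v, (G₁.Adj u v ∧ ¬ G₂.Adj u v) ↔ (u ∈ S ∧ v ∈ S ∧ u ≠ v)) :
    2 * edges G₁ = 2 * edges G₂ + S.card * (S.card - 1) := by
  have h1 : 2 * edges G₁ = ((univ : Finset (Fin n × Fin n)).filter
      fun p => G₁.Adj p.1 p.2).card := by
    rw [edges, SimpleGraph.two_mul_card_edgeFinset]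
  have h2 : 2 * edges G₂ = ((univ : Finset (Fin n × Fin n)).filter
      fun p => G₂.Adj p.1 p.2).card := by
    rw [edges, SimpleGraph.two_mul_card_edgeFinset]
  have h3 : ((univ : Finset (Fin n × Fin n)).filter fun p => G₁.Adj p.1 p.2) =
      ((univ : Finset (Fin n × Fin n)).filter fun p => G₂.Adj p.1 p.2) ∪ S.offDiag := by
    ext ⟨u, v⟩
    simp only [Finset.mem_filter, Finset.mem_univ, true_and, Finset.mem_union,
      Finset.mem_offDiag]
    constructor
    · intro h4
      by_cases h5 : G₂.Adj u v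
      · exact Or.inl h5
      · exact Or.inr ((hS u v).1 ⟨h4, h5⟩)
    · rintro (h4 | h4)
      · exact h h4
      · exact ((hS u v).2 h4).1
  have h4 : Disjoint ((univ : Finset (Fin n × Fin n)).filter fun p => G₂.Adj p.1 p.2)
      S.offDiag := by
    rw [Finset.disjoint_left]
    rintro ⟨u, v⟩ h5 h6
    exact ((hS u v).2 (Finset.mem_offDiag.1 h6)).2 (Finset.mem_filter.1 h5).2
  rw [h1, h2, h3, Finset.card_union_of_disjoint h4, Finset.offDiag_card]
  congr 1
  rw [Nat.mul_sub, mul_one]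

theorem dvd_consecutive {k s : ℕ} (hs : 2 ≤ s) (h : 2 ^ (k + 1) ∣ s * (s - 1)) :
    2 ^ (k + 1) ≤ s := by
  have hco : Nat.Coprime s (s - 1) := by
    obtain ⟨t, rfl⟩ : ∃ t, s = t + 1 := ⟨s - 1, by omega⟩
    simp
  have h1 : 2 ^ (k + 1) ∣ s ∨ 2 ^ (k + 1) ∣ s - 1 := by
    rcases Nat.even_or_odd s with he | ho
    · left
      have h2 : Nat.Coprime (2 ^ (k + 1)) (s - 1) := by
        apply Nat.Coprime.pow_left
        exact Nat.Coprime.coprime_dvd_left he.two_dvd hco
      exact h2.dvd_of_dvd_mul_right h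
    · right
      have h2 : Nat.Coprime (2 ^ (k + 1)) s := by
        apply Nat.Coprime.pow_left
        exact (Nat.coprime_two_left).2 ho
      exact h2.dvd_of_dvd_mul_left h
  rcases h1 with h1 | h1
  · exact Nat.le_of_dvd (by omega) h1
  · exact (Nat.le_of_dvd (by omega) h1).trans (by omega)

open scoped Classical in
/-- graphs without independent `2 ^ (k+1)`-sets whose number of edges is `r` modulo `2 ^ k` -/
noncomputable def fam (n k r : ℕ) : Finset (SimpleGraph (Fin n)) :=
  univ.filter fun G => ¬ HasIndep (2 ^ (k + 1)) G ∧ edges G % 2 ^ k = r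

theorem fam_indep (n k r : ℕ) : Indep (fam n k r) := by
  classical
  rintro G₁ h₁ G₂ h₂ ⟨hle, S, hS, hd⟩
  obtain ⟨h1, h2⟩ := (Finset.mem_filter.1 h₁).2
  obtain ⟨h3, h4⟩ := (Finset.mem_filter.1 h₂).2
  have h5 := edges_step G₁ G₂ hle S hd
  have h6 : 2 ^ (k + 1) ∣ S.card * (S.card - 1) := by
    have h7 : edges G₂ ≤ edges G₁ := by omega
    have h8 : (2 ^ k) ∣ edges G₁ - edges G₂ := by
      rw [← Nat.modEq_iff_dvd' h7]
      exact (h4.trans h2.symm)
    have h9 : S.card * (S.card - 1) = 2 * (edges G₁ - edges G₂) := by omega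
    rw [h9, pow_succ, mul_comm (2 ^ k) 2]
    exact Nat.mul_dvd_mul_left 2 h8
  have h7 := dvd_consecutive hS h6
  obtain ⟨T, hT, hTc⟩ := Finset.exists_subset_card_eq h7
  refine h3 ⟨T, hTc, fun u hu v hv hadj => ?_⟩
  have := (hd u v).2 ⟨hT hu, hT hv, hadj.ne⟩
  exact this.2 hadj

theorem exists_fam (n k : ℕ) (h : n ^ 2 ≤ 2 ^ (2 ^ (k + 1) - 1)) :
    ∃ r, (2 : ℝ) ^ (n.choose 2) ≤ (2 ^ k + 1) * ((fam n k r).card : ℝ) := by
  classical
  set M := 2 ^ (k + 1) with hMdef
  have hM : 1 ≤ M := Nat.one_le_two_pow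
  have hb := card_hasIndep_le n M h
  -- the good graphs
  set A := univ.filter fun G : SimpleGraph (Fin n) => ¬ HasIndep M G with hA
  have hcard : ((univ.filter fun G : SimpleGraph (Fin n) => HasIndep M G).card : ℝ) +
      (A.card : ℝ) = 2 ^ (n.choose 2) := by
    have h1 := Finset.card_filter_add_card_filter_not (s := (univ : Finset (SimpleGraph (Fin n))))
      (fun G : SimpleGraph (Fin n) => HasIndep M G)
    rw [Finset.card_univ, card_graph, Fintype.card_fin] at h1
    exact_mod_cast h1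
  have hsum : (A.card : ℕ) = ∑ r ∈ Finset.range (2 ^ k), (fam n k r).card := by
    rw [Finset.card_eq_sum_card_fiberwise (f := fun G => edges G % 2 ^ k)
      (t := Finset.range (2 ^ k))]
    · refine Finset.sum_congr rfl fun r _ => ?_
      congr 1
      ext G
      simp only [hA, fam, Finset.mem_filter, Finset.mem_univ, true_and, hMdef]
    · intro G _
      exact Finset.mem_coe.2 (Finset.mem_range.2 (Nat.mod_lt _ (by positivity)))
  by_contra hcon
  push Not at hcon
  have h2 : (2 ^ k + 1 : ℝ) * (A.card : ℝ) < 2 ^ k * 2 ^ (n.choose 2) := by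
    have h3 : (A.card : ℝ) = ∑ r ∈ Finset.range (2 ^ k), ((fam n k r).card : ℝ) := by
      rw [hsum]
      push_cast
      rfl
    rw [h3, Finset.mul_sum]
    calc ∑ r ∈ Finset.range (2 ^ k), (2 ^ k + 1 : ℝ) * ((fam n k r).card : ℝ)
        < ∑ r ∈ Finset.range (2 ^ k), (2 : ℝ) ^ (n.choose 2) := by
          apply Finset.sum_lt_sum_of_nonempty
          · exact Finset.nonempty_range_iff.2 (by positivity)
          · intro r _
            exact hcon r
      _ = 2 ^ k * 2 ^ (n.choose 2) := by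
          rw [Finset.sum_const, Finset.card_range, nsmul_eq_mul]
          push_cast
          ring
  have h4 : (2 ^ k + 1 : ℝ) ≤ (M.factorial : ℝ) := by
    have h5 : 2 ^ k + 1 ≤ M := by
      rw [hMdef, pow_succ]
      have : 1 ≤ 2 ^ k := Nat.one_le_two_pow
      omega
    exact_mod_cast h5.trans (Nat.self_le_factorial M)
  set B : ℝ := ((univ.filter fun G : SimpleGraph (Fin n) => HasIndep M G).card : ℝ) with hB
  have hB0 : 0 ≤ B := Nat.cast_nonneg _
  have h6 : B * (2 ^ k + 1) ≤ 2 ^ (n.choose 2) :=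
    (mul_le_mul_of_nonneg_left h4 hB0).trans hb
  nlinarith

theorem exists_family (n : ℕ) (hn : 2 ≤ n) : ∃ F : Finset (SimpleGraph (Fin n)), Indep F ∧
    (2 : ℝ) ^ (n.choose 2) ≤ (2 * Real.logb 2 n + 2) * (F.card : ℝ) := by
  classical
  have hex : ∃ k, n ^ 2 ≤ 2 ^ (2 ^ (k + 1) - 1) := by
    refine ⟨n, ?_⟩
    have h1 : n < 2 ^ n := Nat.lt_two_pow_self
    have h2 : 2 * n ≤ 2 ^ (n + 1) - 1 := by
      rw [pow_succ]
      omega
    calc n ^ 2 ≤ (2 ^ n) ^ 2 := Nat.pow_le_pow_left h1.le 2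
      _ = 2 ^ (2 * n) := by rw [← pow_mul, mul_comm]
      _ ≤ _ := Nat.pow_le_pow_right (by norm_num) h2
  set k := Nat.find hex with hk
  have h1 : n ^ 2 ≤ 2 ^ (2 ^ (k + 1) - 1) := Nat.find_spec hex
  have hk0 : k ≠ 0 := by
    intro h0
    rw [h0] at h1
    norm_num at h1
    nlinarith
  have h2 : ¬ n ^ 2 ≤ 2 ^ (2 ^ ((k - 1) + 1) - 1) := Nat.find_min hex (by omega)
  have h3 : k - 1 + 1 = k := by omega
  rw [h3] at h2
  push Not at h2
  obtain ⟨r, hr⟩ := exists_fam n k h1
  refine ⟨fam n k r, fam_indep n k r, hr.trans ?_⟩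
  apply mul_le_mul_of_nonneg_right _ (Nat.cast_nonneg _)
  have hn0 : (0 : ℝ) < n := by
    have : 0 < n := by omega
    exact_mod_cast this
  have h4 : ((2 ^ k - 1 : ℕ) : ℝ) ≤ 2 * Real.logb 2 n := by
    have h5 : ((2 : ℝ) ^ (2 ^ k - 1 : ℕ)) ≤ (n : ℝ) ^ 2 := by exact_mod_cast h2.le
    have h6 := Real.logb_le_logb_of_le (b := 2) (by norm_num) (by positivity) h5
    rw [Real.logb_pow, Real.logb_pow, Real.logb_self_eq_one (by norm_num), mul_one] at h6
    exact_mod_cast h6
  have h7 : ((2 ^ k - 1 : ℕ) : ℝ) = 2 ^ k - 1 := by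
    rw [Nat.cast_sub Nat.one_le_two_pow]
    push_cast
    ring
  rw [h7] at h4
  linarith

end Pool.Agent.Lib.MP_b39aa3_co
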