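import Pool.Agent.Lib.MP_b39aa3_co.Poly

/-!
Families which fill most of a level set of a bounded degree polynomial contain clique steps.
-/

set_option autoImplicit false
set_option linter.unusedSectionVars false

namespace Pool.Agent.Lib.MP_b39aa3_co

open scoped symmDiff
open Finset

section
variable {U V : Type*} [Fintype U] [DecidableEq U] [Fintype V] [DecidableEq V]

open scoped Classical in
/-- Planting identity. -/
theorem plant_sum (f : U ↪ V) (w : SimpleGraph U → ℝ) (F : Finset (SimpleGraph V)) :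
    (Fintype.card (SimpleGraph U) : ℝ) * ∑ G ∈ F, w (G.comap f) =
      ∑ G : SimpleGraph V, ∑ H : SimpleGraph U, if plant f G H ∈ F then w H else 0 := by
  calc (Fintype.card (SimpleGraph U) : ℝ) * ∑ G ∈ F, w (G.comap f)
      = ∑ K : SimpleGraph U, ∑ G : SimpleGraph V,
          (if G ∈ F then w (G.comap f) else 0) := by
        rw [Finset.sum_const, Finset.card_univ, nsmul_eq_mul, ← Finset.sum_filter]
        simp
    _ = ∑ K : SimpleGraph U, ∑ G : SimpleGraph V,
          (if G ∆ K.map f ∈ F then w (G.comap f ∆ K) else 0) := by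
        refine Finset.sum_congr rfl fun K _ => ?_
        rw [← sum_symmDiff (K.map f)]
        refine Finset.sum_congr rfl fun G _ => ?_
        rw [comap_symmDiff, SimpleGraph.comap_map_eq]
    _ = ∑ G : SimpleGraph V, ∑ K : SimpleGraph U,
          (if G ∆ K.map f ∈ F then w (G.comap f ∆ K) else 0) := Finset.sum_comm
    _ = _ := by
        refine Finset.sum_congr rfl fun G _ => ?_
        rw [← sum_symmDiff (G.comap f)]
        refine Finset.sum_congr rfl fun H _ => ?_
        have e1 : G.comap f ∆ (H ∆ G.comap f) = H := by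
          rw [symmDiff_comm H, ← symmDiff_assoc, symmDiff_self, bot_symmDiff]
        rw [e1]
        rfl

open scoped Classical in
/-- Planting one fixed pattern. -/
theorem plant_card (f : U ↪ V) (H : SimpleGraph U) (F : Finset (SimpleGraph V)) :
    ((univ.filter fun G : SimpleGraph V => plant f G H ∈ F).card : ℝ) =
      Fintype.card (SimpleGraph U) * ∑ G ∈ F, if G.comap f = H then (1 : ℝ) else 0 := by
  rw [plant_sum f (fun K => if K = H then (1 : ℝ) else 0) F]
  rw [Finset.card_filter]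
  push_cast
  refine Finset.sum_congr rfl fun G _ => ?_
  rw [Finset.sum_eq_single H]
  · simp
  · intro K _ hK
    simp [hK]
  · intro h
    exact (h (Finset.mem_univ _)).elim

open scoped Classical in
theorem plant_card_le (f : U ↪ V) (H : SimpleGraph U) (F : Finset (SimpleGraph V)) :
    ((univ.filter fun G : SimpleGraph V => plant f G H ∈ F).card : ℝ) ≤
      Fintype.card (SimpleGraph U) * F.card := by
  rw [plant_card]
  refine mul_le_mul_of_nonneg_left ?_ (by positivity)
  rw [← Finset.sum_filter, Finset.sum_const, nsmul_eq_mul, mul_one]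
  exact_mod_cast Finset.card_filter_le _ _

open scoped Classical in
/-- For a dense family a pattern can be planted in one of many blocks. -/
theorem plant_lower {m : ℕ} (hm : 0 < m) (f : Fin m → U ↪ V)
    (hf : ∀ i j, i ≠ j → ∀ a b, f i a ≠ f j b) (H : SimpleGraph U)
    (F : Finset (SimpleGraph V)) :
    ∃ j, (F.card : ℝ) - Fintype.card (SimpleGraph U) * Fintype.card (SimpleGraph V) / √m ≤
      ((univ.filter fun G : SimpleGraph V => plant (f j) G H ∈ F).card : ℝ) := by
  set T : ℝ := (Fintype.card (SimpleGraph U) : ℝ) with hT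
  set Ω : ℝ := (Fintype.card (SimpleGraph V) : ℝ) with hΩ
  have hTpos : 0 < T := by rw [hT]; exact_mod_cast Fintype.card_pos
  have hT1 : 1 ≤ T := by rw [hT]; exact_mod_cast (Fintype.card_pos : 0 < _)
  have hΩpos : 0 < Ω := by rw [hΩ]; exact_mod_cast Fintype.card_pos
  have hmpos : (0 : ℝ) < m := by exact_mod_cast hm
  set w : SimpleGraph U → ℝ := fun K => if K = H then (1 : ℝ) else 0 with hw
  set h : SimpleGraph U → ℝ := fun K => w K - 1 / T with hh
  have hW : ∑ K, w K = 1 := by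
    simp [hw]
  have h0 : ∑ K, h K = 0 := by
    simp only [hh]
    rw [Finset.sum_sub_distrib, hW, Finset.sum_const, Finset.card_univ, nsmul_eq_mul, ← hT]
    field_simp
    ring
  have hb : ∀ K, |h K| ≤ 1 := by
    intro K
    have h1 : 1 / T ≤ 1 := by
      rw [div_le_one hTpos]
      exact hT1
    have h2 : 0 ≤ 1 / T := by positivity
    rw [abs_le]
    simp only [hh, hw]
    split_ifs <;> constructor <;> linarith
  have hsq : ∑ G : SimpleGraph V, (∑ j, h (G.comap (f j))) ^ 2 ≤ m * Ω := by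
    have h1 : ∀ G : SimpleGraph V, (∑ j, h (G.comap (f j))) ^ 2 =
        ∑ i, ∑ j, h (G.comap (f i)) * h (G.comap (f j)) := by
      intro G
      rw [sq, Finset.sum_mul_sum]
    simp_rw [h1]
    rw [Finset.sum_comm]
    have h2 : ∀ i : Fin m, ∑ G : SimpleGraph V, ∑ j, h (G.comap (f i)) * h (G.comap (f j)) ≤
        Ω := by
      intro i
      rw [Finset.sum_comm, Finset.sum_eq_single i]
      · calc ∑ G : SimpleGraph V, h (G.comap (f i)) * h (G.comap (f i))
            ≤ ∑ _G : SimpleGraph V, (1 : ℝ) := by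
              refine Finset.sum_le_sum fun G _ => ?_
              rw [← sq, ← sq_abs]
              exact pow_le_one₀ (abs_nonneg _) (hb _)
          _ = Ω := by rw [Finset.sum_const, Finset.card_univ, nsmul_eq_mul, mul_one]
      · intro j _ hj
        exact two_blocks (f i) (f j) (hf j i hj) h h0
      · intro hi
        exact (hi (Finset.mem_univ _)).elim
    calc ∑ i, ∑ G : SimpleGraph V, ∑ j, h (G.comap (f i)) * h (G.comap (f j))
        ≤ ∑ _i : Fin m, Ω := Finset.sum_le_sum fun i _ => h2 i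
      _ = m * Ω := by simp
  have hcs : (∑ G ∈ F, ∑ j, h (G.comap (f j))) ^ 2 ≤ Ω * (m * Ω) := by
    calc (∑ G ∈ F, ∑ j, h (G.comap (f j))) ^ 2
        ≤ F.card * ∑ G ∈ F, (∑ j, h (G.comap (f j))) ^ 2 := sq_sum_le_card_mul_sum_sq
      _ ≤ Ω * ∑ G : SimpleGraph V, (∑ j, h (G.comap (f j))) ^ 2 := by
          refine mul_le_mul ?_ ?_ ?_ hΩpos.le
          · rw [hΩ]
            exact_mod_cast Finset.card_le_univ F
          · exact Finset.sum_le_sum_of_subset_of_nonneg (Finset.subset_univ _)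
              fun _ _ _ => sq_nonneg _
          · exact Finset.sum_nonneg fun _ _ => sq_nonneg _
      _ ≤ _ := mul_le_mul_of_nonneg_left hsq hΩpos.le
  have hcs2 : -(Ω * √m) ≤ ∑ G ∈ F, ∑ j, h (G.comap (f j)) := by
    have h1 : (∑ G ∈ F, ∑ j, h (G.comap (f j))) ^ 2 ≤ (Ω * √m) ^ 2 := by
      refine hcs.trans_eq ?_
      rw [mul_pow, Real.sq_sqrt hmpos.le]
      ring
    exact (abs_le_of_sq_le_sq' h1 (by positivity)).1
  have hlow : ∑ j, T * ∑ G ∈ F, w (G.comap (f j)) =
      T * ∑ G ∈ F, ∑ j, h (G.comap (f j)) + m * F.card := by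
    rw [← Finset.mul_sum, Finset.sum_comm]
    simp only [hh]
    simp_rw [Finset.sum_sub_distrib]
    simp only [Finset.sum_const, Finset.card_univ, Fintype.card_fin, nsmul_eq_mul]
    field_simp
    ring
  by_contra hcon
  push Not at hcon
  have h3 : ∑ j, T * ∑ G ∈ F, w (G.comap (f j)) < ∑ _j : Fin m, ((F.card : ℝ) - T * Ω / √m) := by
    refine Finset.sum_lt_sum_of_nonempty ⟨⟨0, hm⟩, Finset.mem_univ _⟩ fun j _ => ?_
    have := hcon j
    rw [plant_card] at this
    exact this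
  have hsm : 0 < √(m : ℝ) := Real.sqrt_pos.2 hmpos
  have hss : √(m : ℝ) * √m = m := Real.mul_self_sqrt hmpos.le
  have h4 : ∑ _j : Fin m, ((F.card : ℝ) - T * Ω / √m) = m * F.card - T * (Ω * √m) := by
    rw [Finset.sum_const, Finset.card_univ, Fintype.card_fin, nsmul_eq_mul]
    have e : (m : ℝ) * (T * Ω / √m) = T * (Ω * √m) := by
      have e2 : (m : ℝ) * (T * Ω / √m) = (√m * √m) * (T * Ω / √m) := by rw [hss]
      rw [e2]
      field_simp
    rw [mul_sub, e]
  rw [h4, hlow] at h3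
  have h5 := mul_le_mul_of_nonneg_left hcs2 hTpos.le
  linarith

/-- Planting a clique in an empty block. -/
theorem plant_clique (f : U ↪ V) (G : SimpleGraph V) (S : Finset U) :
    plant f G (cliqueGraph S) = plant f G ⊥ ⊔ cliqueGraph (S.map f) := by
  ext u v
  rw [SimpleGraph.sup_adj]
  by_cases h : ∃ a b, f a = u ∧ f b = v
  · obtain ⟨a, b, rfl, rfl⟩ := h
    rw [plant_adj_in, plant_adj_in]
    change (a ∈ S ∧ b ∈ S ∧ a ≠ b) ↔ False ∨ (f a ∈ S.map f ∧ f b ∈ S.map f ∧ f a ≠ f b)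
    rw [Finset.mem_map', Finset.mem_map', f.injective.ne_iff]
    tauto
  · rw [plant_adj_out _ _ _ _ _ h, plant_adj_out _ _ _ _ _ h]
    constructor
    · exact Or.inl
    · rintro (h1 | ⟨h1, h2, -⟩)
      · exact h1
      · obtain ⟨a, -, ha⟩ := Finset.mem_map.1 h1
        obtain ⟨b, -, hb⟩ := Finset.mem_map.1 h2
        exact (h ⟨a, b, ha, hb⟩).elim

theorem cliqueStep_bot (S : Finset U) (hS : 2 ≤ S.card) :
    CliqueStep (cliqueGraph S) (⊥ : SimpleGraph U) := by
  refine ⟨bot_le, S, hS, fun u v => ?_⟩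
  change ((u ∈ S ∧ v ∈ S ∧ u ≠ v) ∧ ¬ False) ↔ _
  tauto

end

/-- Robust form. -/
theorem robust (Γ : Type) [AddCommGroup Γ] [Finite Γ] (d : ℕ) :
    ∃ δ : ℝ, 0 < δ ∧ ∀ c : ℝ, 0 < c → ∃ N : ℕ, ∀ n : ℕ, N ≤ n →
      ∀ P : SimpleGraph (Fin n) → Γ, IsPoly d P → ∀ (A F : Finset (SimpleGraph (Fin n))) (γ : Γ),
      (∀ G, G ∈ A ↔ P G = γ) → c * (2 : ℝ) ^ (n.choose 2) ≤ (A.card : ℝ) →
      (1 - δ) * (A.card : ℝ) ≤ (((A : Set (SimpleGraph (Fin n))) ∩ F).ncard : ℝ) →
      ∃ G₁ ∈ F, ∃ G₂ ∈ F, CliqueStep G₁ G₂ := by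
  classical
  obtain ⟨M, hM2, hM⟩ := recurrence Γ d
  set T : ℝ := (Fintype.card (SimpleGraph (Fin M)) : ℝ) with hT
  have hTpos : 0 < T := by rw [hT]; exact_mod_cast Fintype.card_pos
  refine ⟨1 / (2 ^ (M + 1) * T), by positivity, fun c hc => ?_⟩
  obtain ⟨m, hm0, hm⟩ : ∃ m : ℕ, 0 < m ∧ T / √m < c / 2 := by
    have h1 : Filter.Tendsto (fun m : ℕ => T / √(m : ℝ)) Filter.atTop (nhds 0) := by
      refine Filter.Tendsto.div_atTop tendsto_const_nhds ?_
      exact Real.tendsto_sqrt_atTop.comp tendsto_natCast_atTop_atTop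
    have h2 := h1.eventually (gt_mem_nhds (show (0 : ℝ) < c / 2 by linarith))
    obtain ⟨m, h3, h4⟩ := (h2.and (Filter.eventually_gt_atTop 0)).exists
    exact ⟨m, h4, h3⟩
  refine ⟨m * M, fun n hn P hP A F γ hA hAc hAF => ?_⟩
  by_contra hcon
  push Not at hcon
  obtain ⟨f, hf⟩ := exists_blocks M m n hn
  obtain ⟨j, hj⟩ := plant_lower hm0 f hf ⊥ A
  set Ω : ℝ := (Fintype.card (SimpleGraph (Fin n)) : ℝ) with hΩ
  have hΩ2 : Ω = 2 ^ (n.choose 2) := by
    rw [hΩ, card_graph, Fintype.card_fin]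
    push_cast
    rfl
  have hΩpos : 0 < Ω := by rw [hΩ2]; positivity
  -- the exceptional set
  set B := A \ F with hB
  have hBc : (B.card : ℝ) ≤ 1 / (2 ^ (M + 1) * T) * A.card := by
    have h1 : ((A : Set (SimpleGraph (Fin n))) ∩ F).ncard = (A ∩ F).card := by
      rw [← Finset.coe_inter, Set.ncard_coe_finset]
    rw [h1] at hAF
    have h2 : (A ∩ F).card + B.card = A.card := by
      rw [hB]
      have := Finset.card_sdiff_add_card_inter A F
      omega
    have h3 : ((A ∩ F).card : ℝ) + B.card = A.card := by exact_mod_cast h2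
    linarith
  -- covering
  have hcov : (univ.filter fun G : SimpleGraph (Fin n) => plant (f j) G ⊥ ∈ A) ⊆
      (univ : Finset (Finset (Fin M))).biUnion fun S =>
        univ.filter fun G : SimpleGraph (Fin n) => plant (f j) G (cliqueGraph S) ∈ B := by
    intro G hG
    have hG' := (Finset.mem_filter.1 hG).2
    rw [Finset.mem_biUnion]
    by_cases hGF : plant (f j) G ⊥ ∈ F
    · obtain ⟨S', hS', hS'2, hPS⟩ := hM (Fin n) P hP (plant (f j) G ⊥) (univ.map (f j))
        (by simp)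
      obtain ⟨S, hSS⟩ : ∃ S : Finset (Fin M), S.map (f j) = S' := by
        refine ⟨univ.filter fun a => f j a ∈ S', ?_⟩
        ext v
        rw [Finset.mem_map]
        constructor
        · rintro ⟨a, ha, rfl⟩
          exact (Finset.mem_filter.1 ha).2
        · intro hv
          obtain ⟨a, -, rfl⟩ := Finset.mem_map.1 (hS' hv)
          exact ⟨a, Finset.mem_filter.2 ⟨Finset.mem_univ _, hv⟩, rfl⟩
      refine ⟨S, Finset.mem_univ _, Finset.mem_filter.2 ⟨Finset.mem_univ _, ?_⟩⟩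
      rw [hB, Finset.mem_sdiff]
      constructor
      · rw [hA, plant_clique, hSS, hPS, ← hA]
        exact hG'
      · intro h3
        refine hcon _ h3 _ hGF (plant_step (f j) G _ _ (cliqueStep_bot S ?_))
        rw [← Finset.card_map (f j), hSS]
        exact hS'2
    · refine ⟨∅, Finset.mem_univ _, Finset.mem_filter.2 ⟨Finset.mem_univ _, ?_⟩⟩
      rw [cliqueGraph_small ∅ (by simp), hB, Finset.mem_sdiff]
      exact ⟨hG', hGF⟩
  have hle : ((univ.filter fun G : SimpleGraph (Fin n) => plant (f j) G ⊥ ∈ A).card : ℝ) ≤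
      2 ^ M * (T * B.card) := by
    have h1 := (Finset.card_le_card hcov).trans Finset.card_biUnion_le
    have h2 : ((univ.filter fun G : SimpleGraph (Fin n) => plant (f j) G ⊥ ∈ A).card : ℝ) ≤
        ∑ S : Finset (Fin M),
          ((univ.filter fun G : SimpleGraph (Fin n) =>
            plant (f j) G (cliqueGraph S) ∈ B).card : ℝ) := by
      exact_mod_cast h1
    refine h2.trans ?_
    calc ∑ S : Finset (Fin M), ((univ.filter fun G : SimpleGraph (Fin n) =>
            plant (f j) G (cliqueGraph S) ∈ B).card : ℝ)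
        ≤ ∑ _S : Finset (Fin M), T * B.card :=
          Finset.sum_le_sum fun S _ => plant_card_le (f j) (cliqueGraph S) B
      _ = 2 ^ M * (T * B.card) := by
          rw [Finset.sum_const, Finset.card_univ, Fintype.card_finset, Fintype.card_fin,
            nsmul_eq_mul]
          push_cast
          rfl
  have h1 : 2 ^ M * (T * (B.card : ℝ)) ≤ A.card / 2 := by
    have h2 : 2 ^ M * (T * (B.card : ℝ)) ≤
        2 ^ M * (T * (1 / (2 ^ (M + 1) * T) * A.card)) := by gcongr
    refine h2.trans_eq ?_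
    rw [pow_succ]
    field_simp
  have h2 : T * Ω / √m < c / 2 * Ω := by
    have : T * Ω / √m = T / √m * Ω := by ring
    rw [this]
    exact mul_lt_mul_of_pos_right hm hΩpos
  rw [← hΩ2] at hAc
  linarith

/-- Unions of level sets. -/
theorem level_sets (Γ : Type) [AddCommGroup Γ] [Finite Γ] (d : ℕ) (c : ℝ) (hc : 0 < c) :
    ∃ N : ℕ, ∀ n : ℕ, N ≤ n → ∀ P : SimpleGraph (Fin n) → Γ, IsPoly d P →
      ∀ F : Finset (SimpleGraph (Fin n)),
      (∀ G₁ ∈ F, ∀ G₂, P G₂ = P G₁ → G₂ ∈ F) → c * (2 : ℝ) ^ (n.choose 2) ≤ (F.card : ℝ) →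
      ∃ G₁ ∈ F, ∃ G₂ ∈ F, CliqueStep G₁ G₂ := by
  classical
  have := Fintype.ofFinite Γ
  obtain ⟨δ, hδ, h⟩ := robust Γ d
  have hk : (0 : ℝ) < Fintype.card Γ := by exact_mod_cast Fintype.card_pos
  obtain ⟨N, hN⟩ := h (c / Fintype.card Γ) (by positivity)
  refine ⟨N, fun n hn P hP F hF hFc => ?_⟩
  obtain ⟨γ, hγ⟩ : ∃ γ : Γ, c / Fintype.card Γ * (2 : ℝ) ^ (n.choose 2) ≤
      ((F.filter fun G => P G = γ).card : ℝ) := by
    by_contra hcon
    push Not at hcon
    have h1 := Finset.card_eq_sum_card_fiberwise (f := P) (s := F) (t := Finset.univ)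
      (fun _ _ => Finset.mem_univ _)
    have h2 : (F.card : ℝ) = ∑ γ : Γ, ((F.filter fun G => P G = γ).card : ℝ) := by
      exact_mod_cast h1
    have h3 : ∑ γ : Γ, ((F.filter fun G => P G = γ).card : ℝ) <
        ∑ _γ : Γ, c / Fintype.card Γ * (2 : ℝ) ^ (n.choose 2) :=
      Finset.sum_lt_sum_of_nonempty ⟨0, Finset.mem_univ _⟩ fun γ _ => hcon γ
    rw [Finset.sum_const, Finset.card_univ, nsmul_eq_mul] at h3
    have h4 : (Fintype.card Γ : ℝ) * (c / Fintype.card Γ * 2 ^ (n.choose 2)) =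
        c * 2 ^ (n.choose 2) := by
      field_simp
    linarith
  have hne : (F.filter fun G => P G = γ).Nonempty := by
    rw [← Finset.card_pos]
    have : (0 : ℝ) < ((F.filter fun G => P G = γ).card : ℝ) :=
      lt_of_lt_of_le (by positivity) hγ
    exact_mod_cast this
  obtain ⟨G₀, hG₀⟩ := hne
  obtain ⟨hG₀F, hG₀γ⟩ := Finset.mem_filter.1 hG₀
  refine hN n hn P hP (F.filter fun G => P G = γ) F γ ?_ hγ ?_
  · intro G
    rw [Finset.mem_filter]
    exact ⟨fun h => h.2, fun h => ⟨hF G₀ hG₀F G (h.trans hG₀γ.symm), h⟩⟩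
  · have h1 : (((F.filter fun G => P G = γ) : Finset (SimpleGraph (Fin n))) :
        Set (SimpleGraph (Fin n))) ∩ F = ((F.filter fun G => P G = γ) :
          Finset (SimpleGraph (Fin n))) := by
      rw [Set.inter_eq_left]
      exact_mod_cast Finset.filter_subset _ _
    rw [h1, Set.ncard_coe_finset]
    have h2 : (0 : ℝ) ≤ ((F.filter fun G => P G = γ).card : ℝ) := by positivity
    nlinarith

/-- Pointwise form. -/
theorem pointwise (Γ : Type) [AddCommGroup Γ] [Finite Γ] (d : ℕ) :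
    ∃ M : ℕ, ∀ (n : ℕ) (P : SimpleGraph (Fin n) → Γ), IsPoly d P →
      ∀ (G : SimpleGraph (Fin n)) (I : Finset (Fin n)),
      (∀ u ∈ I, ∀ v ∈ I, ¬ G.Adj u v) → M ≤ I.card →
      ∃ G₁ : SimpleGraph (Fin n), CliqueStep G₁ G ∧ P G₁ = P G := by
  obtain ⟨M, -, hM⟩ := recurrence Γ d
  refine ⟨M, fun n P hP G I hI hc => ?_⟩
  obtain ⟨S, hS, hS2, hPS⟩ := hM (Fin n) P hP G I hc
  refine ⟨G ⊔ cliqueGraph S, ⟨le_sup_left, S, hS2, fun u v => ?_⟩, hPS⟩
  rw [SimpleGraph.sup_adj]
  change ((G.Adj u v ∨ (u ∈ S ∧ v ∈ S ∧ u ≠ v)) ∧ ¬ G.Adj u v) ↔ _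
  constructor
  · tauto
  · rintro ⟨h1, h2, h3⟩
    exact ⟨Or.inr ⟨h1, h2, h3⟩, hI u (hS h1) v (hS h2)⟩

end Pool.Agent.Lib.MP_b39aa3_co
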