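import Mathlib

/-!
Clique steps in dense families of graphs: transfer from finite patterns to all large graphs.
-/

set_option autoImplicit false

namespace Pool.Agent.Lib.MP_b39aa3_co

open scoped symmDiff
open Finset

/-- `(G₁, G₂)` is a clique step: `G₂` is contained in `G₁` and the difference is the complete graph
on a set of at least two vertices. -/
def CliqueStep {V : Type*} (G₁ G₂ : SimpleGraph V) : Prop :=
  G₂ ≤ G₁ ∧ ∃ S : Finset V, 2 ≤ S.card ∧
    ∀ u v : V, (G₁.Adj u v ∧ ¬ G₂.Adj u v) ↔ (u ∈ S ∧ v ∈ S ∧ u ≠ v)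

/-- a family without clique steps -/
def Indep {V : Type*} (F : Finset (SimpleGraph V)) : Prop :=
  ∀ G₁ ∈ F, ∀ G₂ ∈ F, ¬ CliqueStep G₁ G₂

theorem symmDiff_adj {V : Type*} (G K : SimpleGraph V) (u v : V) :
    (G ∆ K).Adj u v ↔ (G.Adj u v ∧ ¬ K.Adj u v) ∨ (K.Adj u v ∧ ¬ G.Adj u v) := by
  rw [symmDiff_def, SimpleGraph.sup_adj, SimpleGraph.sdiff_adj, SimpleGraph.sdiff_adj]

/-- The number of graphs. -/
theorem card_graph (V : Type*) [Fintype V] [DecidableEq V] :
    Fintype.card (SimpleGraph V) = 2 ^ ((Fintype.card V).choose 2) := by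
  classical
  let e : SimpleGraph V ≃ Set {a : Sym2 V // ¬ a.IsDiag} :=
    { toFun := fun G => {a | (a : Sym2 V) ∈ G.edgeSet}
      invFun := fun s => SimpleGraph.fromEdgeSet (Subtype.val '' s)
      left_inv := by
        intro G
        ext u v
        simp only [SimpleGraph.fromEdgeSet_adj, Set.mem_image, Subtype.exists]
        constructor
        · rintro ⟨⟨a, ha, h1, h2⟩, h3⟩
          change a ∈ G.edgeSet at h1
          rw [h2] at h1
          exact h1
        · intro h
          exact ⟨⟨s(u, v), by simpa using h.ne, h, rfl⟩, h.ne⟩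
      right_inv := by
        intro s
        ext ⟨a, ha⟩
        change a ∈ (SimpleGraph.fromEdgeSet (Subtype.val '' s)).edgeSet ↔ _
        rw [SimpleGraph.edgeSet_fromEdgeSet]
        constructor
        · rintro ⟨⟨b, hb, h1⟩, h2⟩
          have : b = ⟨a, ha⟩ := Subtype.ext h1
          rwa [this] at hb
        · intro h
          exact ⟨⟨_, h, rfl⟩, ha⟩ }
  rw [Fintype.card_congr e, Fintype.card_set, Sym2.card_subtype_not_diag]

section
variable {U V : Type*}

theorem comap_symmDiff (f : U ↪ V) (G K : SimpleGraph V) :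
    (G ∆ K).comap f = G.comap f ∆ K.comap f := by
  ext u v
  rw [SimpleGraph.comap_adj, symmDiff_adj, symmDiff_adj]
  rfl

theorem comap_map_disjoint (f g : U ↪ V) (h : ∀ a b, f a ≠ g b) (K : SimpleGraph U) :
    (K.map f).comap g = ⊥ := by
  ext u v
  rw [SimpleGraph.comap_adj, SimpleGraph.map_adj]
  constructor
  · rintro ⟨a, b, -, h1, -⟩
    exact h _ _ h1
  · intro h
    exact h.elim

/-- `G` with the pattern `H` planted on the image of `f` -/
def plant (f : U ↪ V) (G : SimpleGraph V) (H : SimpleGraph U) : SimpleGraph V :=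
  G ∆ (H ∆ G.comap f).map f

theorem plant_adj_in (f : U ↪ V) (G : SimpleGraph V) (H : SimpleGraph U) (a b : U) :
    (plant f G H).Adj (f a) (f b) ↔ H.Adj a b := by
  have h : (plant f G H).comap f = H := by
    rw [plant, comap_symmDiff, SimpleGraph.comap_map_eq, symmDiff_comm H, ← symmDiff_assoc,
      symmDiff_self, bot_symmDiff]
  rw [← SimpleGraph.comap_adj, h]

theorem plant_adj_out (f : U ↪ V) (G : SimpleGraph V) (H : SimpleGraph U) (u v : V)
    (h : ¬ ∃ a b, f a = u ∧ f b = v) : (plant f G H).Adj u v ↔ G.Adj u v := by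
  have h1 : ¬ ((H ∆ G.comap f).map f).Adj u v := by
    rw [SimpleGraph.map_adj]
    rintro ⟨a, b, -, h1, h2⟩
    exact h ⟨a, b, h1, h2⟩
  rw [plant, symmDiff_adj]
  tauto

theorem plant_step (f : U ↪ V) (G : SimpleGraph V) (H₁ H₂ : SimpleGraph U)
    (h : CliqueStep H₁ H₂) : CliqueStep (plant f G H₁) (plant f G H₂) := by
  obtain ⟨h1, S, h2, h3⟩ := h
  refine ⟨?_, S.map f, by rwa [Finset.card_map], ?_⟩
  · intro u v huv
    by_cases h : ∃ a b, f a = u ∧ f b = v
    · obtain ⟨a, b, rfl, rfl⟩ := h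
      rw [plant_adj_in] at huv ⊢
      exact h1 huv
    · rw [plant_adj_out _ _ _ _ _ h] at huv ⊢
      exact huv
  · intro u v
    by_cases h : ∃ a b, f a = u ∧ f b = v
    · obtain ⟨a, b, rfl, rfl⟩ := h
      rw [plant_adj_in, plant_adj_in, h3, Finset.mem_map', Finset.mem_map', f.injective.ne_iff]
    · rw [plant_adj_out _ _ _ _ _ h, plant_adj_out _ _ _ _ _ h]
      constructor
      · rintro ⟨h4, h5⟩
        exact (h5 h4).elim
      · rintro ⟨h4, h5, -⟩
        obtain ⟨a, -, ha⟩ := Finset.mem_map.1 h4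
        obtain ⟨b, -, hb⟩ := Finset.mem_map.1 h5
        exact (h ⟨a, b, ha, hb⟩).elim

end

section
variable {U V : Type*} [Fintype U] [DecidableEq U] [Fintype V] [DecidableEq V]

open scoped Classical in
/-- Reindexing a sum by a symmetric difference. -/
theorem sum_symmDiff {A : Type*} [AddCommMonoid A] (K : SimpleGraph V) (Φ : SimpleGraph V → A) :
    ∑ G, Φ (G ∆ K) = ∑ G, Φ G :=
  Equiv.sum_comp (Function.Involutive.toPerm (fun G : SimpleGraph V => G ∆ K)
    (fun G => by
      change (G ∆ K) ∆ K = G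
      rw [symmDiff_assoc, symmDiff_self, symmDiff_bot])) Φ

theorem sum_symmDiff' {A : Type*} [AddCommMonoid A] (K : SimpleGraph V) (Φ : SimpleGraph V → A) :
    ∑ G, Φ (K ∆ G) = ∑ G, Φ G := by
  simp_rw [symmDiff_comm K]
  exact sum_symmDiff K Φ

/-- One block. -/
theorem one_block (f : U ↪ V) (w : SimpleGraph U → ℝ) (α : ℝ)
    (hα : ∀ I : Finset (SimpleGraph U), Indep I → ∑ H ∈ I, w H ≤ α * ∑ H, w H)
    (F : Finset (SimpleGraph V)) (hF : Indep F) :
    (Fintype.card (SimpleGraph U) : ℝ) * ∑ G ∈ F, w (G.comap f) ≤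
      Fintype.card (SimpleGraph V) * (α * ∑ H, w H) := by
  classical
  have h1 : (Fintype.card (SimpleGraph U) : ℝ) * ∑ G ∈ F, w (G.comap f) =
      ∑ G : SimpleGraph V, ∑ H : SimpleGraph U, if plant f G H ∈ F then w H else 0 := by
    calc (Fintype.card (SimpleGraph U) : ℝ) * ∑ G ∈ F, w (G.comap f)
        = ∑ K : SimpleGraph U, ∑ G : SimpleGraph V,
            (if G ∈ F then w (G.comap f) else 0) := by
          rw [Finset.sum_const, Finset.card_univ, nsmul_eq_mul, ← Finset.sum_filter]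
          simp
      _ = ∑ K : SimpleGraph U, ∑ G : SimpleGraph V,
            (if G ∆ K.map f ∈ F then w (G.comap f ∆ K) else 0) := by
          refine Finset.sum_congr rfl fun K _ => ?_
          rw [← sum_symmDiff (K.map f)]
          refine Finset.sum_congr rfl fun G _ => ?_
          rw [comap_symmDiff, SimpleGraph.comap_map_eq]
      _ = ∑ G : SimpleGraph V, ∑ K : SimpleGraph U,
            (if G ∆ K.map f ∈ F then w (G.comap f ∆ K) else 0) := Finset.sum_comm
      _ = _ := by
          refine Finset.sum_congr rfl fun G _ => ?_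
          rw [← sum_symmDiff (G.comap f)]
          refine Finset.sum_congr rfl fun H _ => ?_
          have e1 : G.comap f ∆ (H ∆ G.comap f) = H := by
            rw [symmDiff_comm H, ← symmDiff_assoc, symmDiff_self, bot_symmDiff]
          rw [e1]
          rfl
  rw [h1]
  calc ∑ G : SimpleGraph V, ∑ H : SimpleGraph U, (if plant f G H ∈ F then w H else 0)
      ≤ ∑ _G : SimpleGraph V, (α * ∑ H, w H) := by
        refine Finset.sum_le_sum fun G _ => ?_
        rw [← Finset.sum_filter]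
        refine hα _ ?_
        intro H₁ h1 H₂ h2 h3
        exact hF _ (Finset.mem_filter.1 h1).2 _ (Finset.mem_filter.1 h2).2
          (plant_step f G H₁ H₂ h3)
    _ = _ := by rw [Finset.sum_const, Finset.card_univ, nsmul_eq_mul]

/-- Orthogonality of two blocks. -/
theorem two_blocks (f g : U ↪ V) (hfg : ∀ a b, g a ≠ f b) (h : SimpleGraph U → ℝ)
    (h0 : ∑ H, h H = 0) : ∑ G : SimpleGraph V, h (G.comap f) * h (G.comap g) = 0 := by
  classical
  have h1 : (Fintype.card (SimpleGraph U) : ℝ) *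
      ∑ G : SimpleGraph V, h (G.comap f) * h (G.comap g) = 0 := by
    calc (Fintype.card (SimpleGraph U) : ℝ) *
        ∑ G : SimpleGraph V, h (G.comap f) * h (G.comap g)
        = ∑ K : SimpleGraph U, ∑ G : SimpleGraph V, h (G.comap f) * h (G.comap g) := by
          rw [Finset.sum_const, Finset.card_univ, nsmul_eq_mul]
      _ = ∑ K : SimpleGraph U, ∑ G : SimpleGraph V, h (G.comap f) * h (G.comap g ∆ K) := by
          refine Finset.sum_congr rfl fun K _ => ?_
          rw [← sum_symmDiff (K.map g)]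
          refine Finset.sum_congr rfl fun G _ => ?_
          rw [comap_symmDiff, comap_symmDiff, SimpleGraph.comap_map_eq,
            comap_map_disjoint g f hfg, symmDiff_bot]
      _ = ∑ G : SimpleGraph V, ∑ K : SimpleGraph U, h (G.comap f) * h (G.comap g ∆ K) :=
          Finset.sum_comm
      _ = 0 := by
          refine Finset.sum_eq_zero fun G _ => ?_
          rw [← Finset.mul_sum, sum_symmDiff' (G.comap g) h, h0, mul_zero]
  have h2 : (Fintype.card (SimpleGraph U) : ℝ) ≠ 0 := by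
    exact_mod_cast Fintype.card_ne_zero
  exact (mul_eq_zero.1 h1).resolve_left h2

/-- The transfer inequality. -/
theorem transfer {m : ℕ} (hm : 0 < m) (f : Fin m → U ↪ V)
    (hf : ∀ i j, i ≠ j → ∀ a b, f i a ≠ f j b) (w : SimpleGraph U → ℝ) (M α : ℝ)
    (hw0 : ∀ H, 0 ≤ w H) (hwM : ∀ H, w H ≤ M) (hW : 0 < ∑ H, w H)
    (hα : ∀ I : Finset (SimpleGraph U), Indep I → ∑ H ∈ I, w H ≤ α * ∑ H, w H)
    (F : Finset (SimpleGraph V)) (hF : Indep F) :
    (F.card : ℝ) ≤ Fintype.card (SimpleGraph V) *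
      (α + M * Fintype.card (SimpleGraph U) / ((∑ H, w H) * √m)) := by
  classical
  set T : ℝ := (Fintype.card (SimpleGraph U) : ℝ) with hT
  set Ω : ℝ := (Fintype.card (SimpleGraph V) : ℝ) with hΩ
  set W : ℝ := ∑ H, w H with hWd
  have hTpos : 0 < T := by rw [hT]; exact_mod_cast Fintype.card_pos
  have hΩpos : 0 < Ω := by rw [hΩ]; exact_mod_cast Fintype.card_pos
  have hmpos : (0 : ℝ) < m := by exact_mod_cast hm
  have hWM : W ≤ T * M := by
    rw [hWd, hT, ← nsmul_eq_mul, ← Finset.card_univ, ← Finset.sum_const]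
    exact Finset.sum_le_sum fun H _ => hwM H
  have hMpos : 0 < M := by
    by_contra h
    push Not at h
    nlinarith
  set h : SimpleGraph U → ℝ := fun H => w H - W / T with hh
  have h0 : ∑ H, h H = 0 := by
    simp only [hh]
    rw [Finset.sum_sub_distrib, Finset.sum_const, Finset.card_univ, nsmul_eq_mul, ← hT, ← hWd]
    field_simp
    ring
  have hb : ∀ H, |h H| ≤ M := by
    intro H
    have h1 : W / T ≤ M := by
      rw [div_le_iff₀ hTpos, mul_comm]
      exact hWM
    have h2 : 0 ≤ W / T := by positivity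
    rw [abs_le]
    simp only [hh]
    constructor <;> linarith [hw0 H, hwM H]
  -- upper bound
  have hup : T * ∑ G ∈ F, ∑ j, w (G.comap (f j)) ≤ m * (Ω * (α * W)) := by
    rw [Finset.sum_comm, Finset.mul_sum]
    calc ∑ j, T * ∑ G ∈ F, w (G.comap (f j)) ≤ ∑ _j : Fin m, Ω * (α * W) :=
          Finset.sum_le_sum fun j _ => one_block (f j) w α hα F hF
      _ = m * (Ω * (α * W)) := by simp
  -- second moment
  have hsq : ∑ G : SimpleGraph V, (∑ j, h (G.comap (f j))) ^ 2 ≤ m * (Ω * M ^ 2) := by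
    have h1 : ∀ G : SimpleGraph V, (∑ j, h (G.comap (f j))) ^ 2 =
        ∑ i, ∑ j, h (G.comap (f i)) * h (G.comap (f j)) := by
      intro G
      rw [sq, Finset.sum_mul_sum]
    simp_rw [h1]
    rw [Finset.sum_comm]
    have h2 : ∀ i : Fin m, ∑ G : SimpleGraph V, ∑ j, h (G.comap (f i)) * h (G.comap (f j)) ≤
        Ω * M ^ 2 := by
      intro i
      rw [Finset.sum_comm, Finset.sum_eq_single i]
      · calc ∑ G : SimpleGraph V, h (G.comap (f i)) * h (G.comap (f i))
            ≤ ∑ _G : SimpleGraph V, M ^ 2 := by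
              refine Finset.sum_le_sum fun G _ => ?_
              rw [← sq, ← sq_abs]
              exact pow_le_pow_left₀ (abs_nonneg _) (hb _) 2
          _ = Ω * M ^ 2 := by rw [Finset.sum_const, Finset.card_univ, nsmul_eq_mul]
      · intro j _ hj
        exact two_blocks (f i) (f j) (hf j i hj) h h0
      · intro hi
        exact (hi (Finset.mem_univ _)).elim
    calc ∑ i, ∑ G : SimpleGraph V, ∑ j, h (G.comap (f i)) * h (G.comap (f j))
        ≤ ∑ _i : Fin m, Ω * M ^ 2 := Finset.sum_le_sum fun i _ => h2 i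
      _ = m * (Ω * M ^ 2) := by simp
  -- Cauchy-Schwarz
  have hcs : (∑ G ∈ F, ∑ j, h (G.comap (f j))) ^ 2 ≤ Ω * (m * (Ω * M ^ 2)) := by
    calc (∑ G ∈ F, ∑ j, h (G.comap (f j))) ^ 2
        ≤ F.card * ∑ G ∈ F, (∑ j, h (G.comap (f j))) ^ 2 := sq_sum_le_card_mul_sum_sq
      _ ≤ Ω * ∑ G : SimpleGraph V, (∑ j, h (G.comap (f j))) ^ 2 := by
          refine mul_le_mul ?_ ?_ ?_ hΩpos.le
          · rw [hΩ]
            exact_mod_cast Finset.card_le_univ F
          · exact Finset.sum_le_sum_of_subset_of_nonneg (Finset.subset_univ _)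
              fun _ _ _ => sq_nonneg _
          · exact Finset.sum_nonneg fun _ _ => sq_nonneg _
      _ ≤ _ := mul_le_mul_of_nonneg_left hsq hΩpos.le
  have hcs2 : -(Ω * (M * √m)) ≤ ∑ G ∈ F, ∑ j, h (G.comap (f j)) := by
    have h1 : (∑ G ∈ F, ∑ j, h (G.comap (f j))) ^ 2 ≤ (Ω * (M * √m)) ^ 2 := by
      refine hcs.trans_eq ?_
      rw [mul_pow, mul_pow, Real.sq_sqrt hmpos.le]
      ring
    exact (abs_le_of_sq_le_sq' h1 (by positivity)).1
  -- combine
  have hlow : ∑ G ∈ F, ∑ j, w (G.comap (f j)) =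
      ∑ G ∈ F, ∑ j, h (G.comap (f j)) + F.card * (m * (W / T)) := by
    simp only [hh]
    simp_rw [Finset.sum_sub_distrib]
    simp
  rw [hlow] at hup
  have h3 : T * (F.card * (m * (W / T))) = F.card * m * W := by
    field_simp
  have hsm : 0 < √(m : ℝ) := Real.sqrt_pos.2 hmpos
  have hss : √(m : ℝ) * √m = m := Real.mul_self_sqrt hmpos.le
  have h4 : (F.card : ℝ) * m * W ≤ m * (Ω * (α * W)) + T * (Ω * (M * √m)) := by
    have := mul_le_mul_of_nonneg_left hcs2 hTpos.le
    rw [mul_add, h3] at hup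
    linarith
  have h5 : (F.card : ℝ) * (m * W) ≤ (Ω * (α + M * T / (W * √m))) * (m * W) := by
    have e : (Ω * (α + M * T / (W * √m))) * (m * W) =
        m * (Ω * (α * W)) + T * (Ω * (M * √m)) := by
      have e2 : (Ω * (α + M * T / (W * √m))) * (m * W) =
          m * (Ω * (α * W)) + Ω * (M * T / (W * √m)) * (√m * √m) * W := by
        rw [hss]; ring
      rw [e2]
      field_simp
    rw [e]
    linarith
  exact le_of_mul_le_mul_right h5 (by positivity)

end

/-- Disjoint blocks. -/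
theorem exists_blocks (t m n : ℕ) (h : m * t ≤ n) :
    ∃ f : Fin m → Fin t ↪ Fin n, ∀ i j, i ≠ j → ∀ a b, f i a ≠ f j b := by
  refine ⟨fun i => ⟨fun a => ⟨finProdFinEquiv (i, a), lt_of_lt_of_le (Fin.is_lt _) h⟩, ?_⟩, ?_⟩
  · intro a b hab
    have h2 := Fin.ext_iff.1 hab
    have h1 : (finProdFinEquiv (i, a) : Fin (m * t)) = finProdFinEquiv (i, b) := Fin.ext h2
    exact (Prod.ext_iff.1 (finProdFinEquiv.injective h1)).2
  · intro i j hij a b hab
    have h2 := Fin.ext_iff.1 hab
    have h1 : (finProdFinEquiv (i, a) : Fin (m * t)) = finProdFinEquiv (j, b) := Fin.ext h2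
    exact hij (Prod.ext_iff.1 (finProdFinEquiv.injective h1)).1

/-- A bound on the weighted independence ratio of a finite clique step graph bounds the density
of all large families without clique steps. -/
theorem density_of_pattern (t : ℕ) (w : SimpleGraph (Fin t) → ℝ) (α : ℝ)
    (hw0 : ∀ H, 0 ≤ w H) (hW : 0 < ∑ H, w H)
    (hα : ∀ I : Finset (SimpleGraph (Fin t)), Indep I → ∑ H ∈ I, w H ≤ α * ∑ H, w H)
    (c : ℝ) (hc : α < c) :
    ∃ N : ℕ, ∀ n : ℕ, N ≤ n → ∀ F : Finset (SimpleGraph (Fin n)),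
      c * (2 : ℝ) ^ (n.choose 2) ≤ (F.card : ℝ) →
      ∃ G₁ ∈ F, ∃ G₂ ∈ F, CliqueStep G₁ G₂ := by
  classical
  set M : ℝ := ∑ H, w H with hM
  set T : ℝ := (Fintype.card (SimpleGraph (Fin t)) : ℝ) with hT
  have hwM : ∀ H, w H ≤ M := fun H =>
    Finset.single_le_sum (fun H _ => hw0 H) (Finset.mem_univ H)
  obtain ⟨m, hm⟩ : ∃ m : ℕ, 0 < m ∧ T / √m < c - α := by
    have h1 : Filter.Tendsto (fun m : ℕ => T / √(m : ℝ)) Filter.atTop (nhds 0) := by
      refine Filter.Tendsto.div_atTop tendsto_const_nhds ?_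
      exact Real.tendsto_sqrt_atTop.comp tendsto_natCast_atTop_atTop
    have h2 := h1.eventually (gt_mem_nhds (show (0 : ℝ) < c - α by linarith))
    obtain ⟨m, h3, h4⟩ := (h2.and (Filter.eventually_gt_atTop 0)).exists
    exact ⟨m, h4, h3⟩
  refine ⟨m * t, fun n hn F hF => ?_⟩
  by_contra hcon
  push Not at hcon
  obtain ⟨f, hf⟩ := exists_blocks t m n hn
  have h1 := transfer hm.1 f hf w M α hw0 hwM hW hα F hcon
  have hmpos : (0 : ℝ) < m := by exact_mod_cast hm.1
  have hsm : 0 < √(m : ℝ) := Real.sqrt_pos.2 hmpos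
  have h2 : M * T / (M * √m) = T / √m := by
    field_simp
  rw [← hM, ← hT, h2, card_graph, Fintype.card_fin] at h1
  push_cast at h1
  have h3 : (0 : ℝ) < 2 ^ (n.choose 2) := by positivity
  nlinarith [hm.2]

end Pool.Agent.Lib.MP_b39aa3_co
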