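import Pool.Agent.Lib.MP_b39aa3_co.Transfer
import Pool.Agent.Lib.MP_b39aa3_co.Gauss

/-!
Families of graphs without two members whose symmetric difference is a clique.
-/

set_option autoImplicit false
set_option linter.unusedSectionVars false

namespace Pool.Agent.Lib.MP_b39aa3_co

open scoped symmDiff
open Finset

/-- the complete graph on `S` -/
def cliqueGraph {V : Type*} (S : Finset V) : SimpleGraph V where
  Adj u v := u ∈ S ∧ v ∈ S ∧ u ≠ v
  symm := ⟨fun _ _ h => ⟨h.2.1, h.1, h.2.2.symm⟩⟩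
  loopless := ⟨fun _ h => h.2.2 rfl⟩

section
variable {V : Type*} [Fintype V] [DecidableEq V]

open scoped Classical in
/-- the characters of the group of graphs -/
noncomputable def chi (R G : SimpleGraph V) : ℤ :=
  ∏ e : Sym2 V, if e ∈ R.edgeSet ∧ e ∈ G.edgeSet then -1 else 1

theorem chi_comm (R G : SimpleGraph V) : chi R G = chi G R := by
  classical
  rw [chi, chi]
  refine Finset.prod_congr rfl fun e _ => ?_
  by_cases h1 : e ∈ R.edgeSet <;> by_cases h2 : e ∈ G.edgeSet <;> simp [h1, h2]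

theorem mem_edgeSet_symmDiff (G K : SimpleGraph V) (e : Sym2 V) :
    e ∈ (G ∆ K).edgeSet ↔ (e ∈ G.edgeSet ∧ e ∉ K.edgeSet) ∨ (e ∈ K.edgeSet ∧ e ∉ G.edgeSet) := by
  induction e using Sym2.ind with
  | _ u v => exact symmDiff_adj G K u v

theorem chi_symmDiff (R G K : SimpleGraph V) : chi R (G ∆ K) = chi R G * chi R K := by
  classical
  rw [chi, chi, chi, ← Finset.prod_mul_distrib]
  refine Finset.prod_congr rfl fun e _ => ?_
  simp only [mem_edgeSet_symmDiff]
  by_cases h1 : e ∈ R.edgeSet <;> by_cases h2 : e ∈ G.edgeSet <;>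
    by_cases h3 : e ∈ K.edgeSet <;> simp [h1, h2, h3]

theorem chi_symmDiff_left (R K G : SimpleGraph V) : chi (R ∆ K) G = chi R G * chi K G := by
  rw [chi_comm, chi_symmDiff, chi_comm G R, chi_comm G K]

theorem chi_sign (R G : SimpleGraph V) : chi R G = 1 ∨ chi R G = -1 := by
  classical
  rw [chi]
  refine Finset.prod_induction _ (fun x : ℤ => x = 1 ∨ x = -1) (fun a b => mul_sign)
    (Or.inl rfl) ?_
  intro e _
  split_ifs
  · exact Or.inr rfl
  · exact Or.inl rfl

theorem chi_bot (R : SimpleGraph V) : chi R ⊥ = 1 := by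
  classical
  rw [chi]
  refine Finset.prod_eq_one fun e _ => ?_
  simp

theorem chi_bot_left (G : SimpleGraph V) : chi ⊥ G = 1 := by rw [chi_comm, chi_bot]

theorem chi_edge (R : SimpleGraph V) (u v : V) (huv : u ≠ v) :
    (R.Adj u v ∧ chi R (cliqueGraph {u, v}) = -1) ∨
      (¬ R.Adj u v ∧ chi R (cliqueGraph {u, v}) = 1) := by
  classical
  have hmem : ∀ e : Sym2 V, e ∈ (cliqueGraph {u, v}).edgeSet ↔ e = s(u, v) := by
    intro e
    induction e using Sym2.ind with
    | _ a b =>
      change (a ∈ ({u, v} : Finset V) ∧ b ∈ ({u, v} : Finset V) ∧ a ≠ b) ↔ _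
      rw [Finset.mem_insert, Finset.mem_singleton, Finset.mem_insert, Finset.mem_singleton,
        Sym2.eq_iff]
      constructor
      · rintro ⟨rfl | rfl, rfl | rfl, h⟩
        · exact (h rfl).elim
        · exact Or.inl ⟨rfl, rfl⟩
        · exact Or.inr ⟨rfl, rfl⟩
        · exact (h rfl).elim
      · rintro (⟨rfl, rfl⟩ | ⟨rfl, rfl⟩)
        · exact ⟨Or.inl rfl, Or.inr rfl, huv⟩
        · exact ⟨Or.inr rfl, Or.inl rfl, huv.symm⟩
  have h : chi R (cliqueGraph {u, v}) = if R.Adj u v then -1 else 1 := by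
    rw [chi, Finset.prod_eq_single s(u, v)]
    · have : s(u, v) ∈ (cliqueGraph {u, v}).edgeSet := (hmem _).2 rfl
      simp [this]
    · intro e _ he
      have : e ∉ (cliqueGraph {u, v}).edgeSet := fun h => he ((hmem e).1 h)
      simp [this]
    · intro h
      exact (h (Finset.mem_univ _)).elim
  by_cases h1 : R.Adj u v
  · left
    rw [h, if_pos h1]
    exact ⟨h1, rfl⟩
  · right
    rw [h, if_neg h1]
    exact ⟨h1, rfl⟩

/-- Orthogonality. -/
theorem sum_chi (X : SimpleGraph V) (hX : X ≠ ⊥) : ∑ R, chi R X = 0 := by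
  classical
  obtain ⟨u, v, huv⟩ : ∃ u v, X.Adj u v := by
    by_contra h
    push Not at h
    refine hX ?_
    ext u v
    simp [h u v]
  have h1 := sum_symmDiff (cliqueGraph {u, v}) (fun R => chi R X)
  simp_rw [chi_symmDiff_left] at h1
  have h2 : chi (cliqueGraph {u, v}) X = -1 := by
    rw [chi_comm]
    rcases chi_edge X u v huv.ne with h | h
    · exact h.2
    · exact (h.1 huv).elim
  rw [h2, ← Finset.sum_mul] at h1
  linarith

theorem cliqueGraph_small (S : Finset V) (hS : S.card < 2) : cliqueGraph S = ⊥ := by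
  ext u v
  constructor
  · rintro ⟨h1, h2, h3⟩
    exact (h3 (Finset.card_le_one.1 (by omega) u h1 v h2)).elim
  · intro h
    exact h.elim

theorem clique_diff (i j : V) (hij : i ≠ j) (S : Finset V) (hi : i ∉ S) (hj : j ∉ S) :
    cliqueGraph S ∆ cliqueGraph (insert i S) ∆ cliqueGraph (insert j S) ∆
      cliqueGraph (insert i (insert j S)) = cliqueGraph {i, j} := by
  ext u v
  simp only [symmDiff_adj]
  simp only [cliqueGraph, Finset.mem_insert, Finset.mem_singleton]
  by_cases hu1 : u = i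
  · subst hu1
    by_cases hv1 : v = u
    · simp [hv1]
    · by_cases hv2 : v = j
      · subst hv2
        simp [hi, hj, hv1, hij]
      · by_cases hv3 : v ∈ S <;> simp [hi, hv1, hv2, hv3, hij, Ne.symm hv1]
  · by_cases hu2 : u = j
    · subst hu2
      by_cases hv1 : v = u
      · simp [hv1]
      · by_cases hv2 : v = i
        · subst hv2
          simp [hi, hj, hv1, Ne.symm hv1]
        · by_cases hv3 : v ∈ S <;> simp [hj, hv1, hv2, hv3, hu1, Ne.symm hv1]
    · by_cases hu3 : u ∈ S <;> by_cases hv1 : v = i <;> by_cases hv2 : v = j <;>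
        by_cases hv3 : v ∈ S <;> by_cases huv : u = v <;> simp_all

theorem clique_quad (R : SimpleGraph V) :
    Quad (Finset.univ : Finset V) (fun S => chi R (cliqueGraph S))
      (fun i j => if i = j then 1 else chi R (cliqueGraph {i, j})) := by
  refine ⟨fun S => chi_sign _ _, fun i j => ?_, ?_⟩
  · by_cases h : i = j
    · simp [h]
    · simp only [h, if_false]
      exact chi_sign _ _
  · intro i _ j _ hij S _ hi hj
    simp only [hij, if_false]
    rw [← chi_symmDiff, ← chi_symmDiff, ← chi_symmDiff, clique_diff i j hij S hi hj]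

/-- The eigenvalue bound. -/
theorem eigen_bound (R : SimpleGraph V) :
    -(2 ^ Fintype.card V : ℤ) ≤ 4 * ∑ S : Finset V, chi R (cliqueGraph S) := by
  have h := gauss_bound (Finset.univ : Finset V) (fun S => chi R (cliqueGraph S)) _
    (clique_quad R) (by
      rw [cliqueGraph_small ∅ (by simp), chi_bot]) (fun i => by
      rw [cliqueGraph_small {i} (by simp), chi_bot])
  rw [Finset.powerset_univ, Finset.card_univ] at h
  exact h

/-- The density bound. -/
theorem weak_bound (F : Finset (SimpleGraph V))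
    (hF : ∀ G₁ ∈ F, ∀ G₂ ∈ F, ∀ S : Finset V, 2 ≤ S.card → G₁ ∆ G₂ ≠ cliqueGraph S) :
    5 * 2 ^ Fintype.card V * (F.card : ℤ) ≤
      Fintype.card (SimpleGraph V) * (2 ^ Fintype.card V + 4 * (Fintype.card V + 1)) := by
  classical
  set N : ℕ := Fintype.card V with hN
  set Ω : ℤ := (Fintype.card (SimpleGraph V) : ℤ) with hΩ
  set hat : SimpleGraph V → ℤ := fun R => ∑ G ∈ F, chi R G with hhat
  have hΩ0 : 0 ≤ Ω := by rw [hΩ]; positivity
  -- correlation
  have hcor : ∀ K : SimpleGraph V, ∑ R, hat R ^ 2 * chi R K =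
      ∑ G₁ ∈ F, ∑ G₂ ∈ F, if G₁ ∆ G₂ = K then Ω else 0 := by
    intro K
    calc ∑ R, hat R ^ 2 * chi R K
        = ∑ R, ∑ G₁ ∈ F, ∑ G₂ ∈ F, chi R (G₁ ∆ G₂ ∆ K) := by
          refine Finset.sum_congr rfl fun R _ => ?_
          rw [sq, hhat, Finset.sum_mul_sum, Finset.sum_mul]
          refine Finset.sum_congr rfl fun G₁ _ => ?_
          rw [Finset.sum_mul]
          refine Finset.sum_congr rfl fun G₂ _ => ?_
          rw [chi_symmDiff, chi_symmDiff]
      _ = ∑ G₁ ∈ F, ∑ G₂ ∈ F, ∑ R, chi R (G₁ ∆ G₂ ∆ K) := by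
          rw [Finset.sum_comm]
          refine Finset.sum_congr rfl fun G₁ _ => Finset.sum_comm
      _ = _ := by
          refine Finset.sum_congr rfl fun G₁ _ => Finset.sum_congr rfl fun G₂ _ => ?_
          by_cases h : G₁ ∆ G₂ = K
          · rw [if_pos h, h, symmDiff_self]
            simp [chi_bot, hΩ]
          · rw [if_neg h]
            exact sum_chi _ (fun h2 => h (symmDiff_eq_bot.1 h2))
  have hbot : ∑ R, hat R ^ 2 * chi R ⊥ = Ω * F.card := by
    rw [hcor]
    have h1 : ∀ G₁ ∈ F, ∑ G₂ ∈ F, (if G₁ ∆ G₂ = ⊥ then Ω else 0) = Ω := by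
      intro G₁ hG₁
      rw [Finset.sum_eq_single G₁]
      · simp
      · intro G₂ _ hne
        rw [if_neg]
        intro h
        exact hne (symmDiff_eq_bot.1 h).symm
      · intro h
        exact (h hG₁).elim
    rw [Finset.sum_congr rfl h1, Finset.sum_const, nsmul_eq_mul, mul_comm]
  have hbig : ∀ S : Finset V, 2 ≤ S.card → ∑ R, hat R ^ 2 * chi R (cliqueGraph S) = 0 := by
    intro S hS
    rw [hcor]
    refine Finset.sum_eq_zero fun G₁ h1 => Finset.sum_eq_zero fun G₂ h2 => ?_
    rw [if_neg (hF G₁ h1 G₂ h2 S hS)]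
  -- total
  have htot : ∑ R, hat R ^ 2 * ∑ S : Finset V, chi R (cliqueGraph S) ≤ (N + 1) * (Ω * F.card) := by
    have h1 : ∑ R, hat R ^ 2 * ∑ S : Finset V, chi R (cliqueGraph S) =
        ∑ S : Finset V, ∑ R, hat R ^ 2 * chi R (cliqueGraph S) := by
      simp_rw [Finset.mul_sum]
      exact Finset.sum_comm
    rw [h1]
    have h2 : ∀ S : Finset V, ∑ R, hat R ^ 2 * chi R (cliqueGraph S) =
        if S.card < 2 then Ω * F.card else 0 := by
      intro S
      by_cases h : S.card < 2
      · rw [if_pos h, cliqueGraph_small S h, hbot]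
      · rw [if_neg h, hbig S (by omega)]
    simp_rw [h2]
    rw [← Finset.sum_filter, Finset.sum_const, nsmul_eq_mul]
    refine mul_le_mul_of_nonneg_right ?_ (by positivity)
    have h3 : (Finset.univ.filter fun S : Finset V => S.card < 2) ⊆
        insert ∅ (Finset.univ.image fun v : V => ({v} : Finset V)) := by
      intro S hS
      have h4 := (Finset.mem_filter.1 hS).2
      rcases Nat.lt_or_ge S.card 1 with h5 | h5
      · rw [Finset.mem_insert]
        exact Or.inl (Finset.card_eq_zero.1 (by omega))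
      · rw [Finset.mem_insert]
        right
        obtain ⟨v, rfl⟩ := Finset.card_eq_one.1 (show S.card = 1 by omega)
        exact Finset.mem_image_of_mem _ (Finset.mem_univ v)
    have h4 := Finset.card_le_card h3
    have h5 := Finset.card_insert_le ∅ (Finset.univ.image fun v : V => ({v} : Finset V))
    have h6 : (Finset.univ.image fun v : V => ({v} : Finset V)).card ≤ N := Finset.card_image_le
    have h7 : (Finset.univ.filter fun S : Finset V => S.card < 2).card ≤ N + 1 := by omega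
    exact_mod_cast h7
  have hpar : ∑ R, hat R ^ 2 = Ω * F.card := by
    rw [← hbot]
    refine Finset.sum_congr rfl fun R _ => ?_
    rw [chi_bot, mul_one]
  have h0 : hat ⊥ = F.card := by
    simp only [hhat, chi_bot_left]
    simp
  have hlow : 5 * 2 ^ N * (F.card : ℤ) ^ 2 ≤
      ∑ R, hat R ^ 2 * (4 * ∑ S : Finset V, chi R (cliqueGraph S) + 2 ^ N) := by
    have h1 : 5 * 2 ^ N * (F.card : ℤ) ^ 2 =
        hat ⊥ ^ 2 * (4 * ∑ S : Finset V, chi ⊥ (cliqueGraph S) + 2 ^ N) := by
      rw [h0]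
      simp only [chi_bot_left]
      rw [Finset.sum_const, Finset.card_univ, Fintype.card_finset, ← hN]
      simp only [nsmul_eq_mul, Nat.cast_pow, Nat.cast_ofNat, mul_one]
      ring
    rw [h1]
    refine Finset.single_le_sum
      (f := fun R => hat R ^ 2 * (4 * ∑ S : Finset V, chi R (cliqueGraph S) + 2 ^ N)) ?_
      (Finset.mem_univ ⊥)
    intro R _
    refine mul_nonneg (sq_nonneg _) ?_
    have := eigen_bound R
    rw [← hN] at this
    linarith
  have hupp : ∑ R, hat R ^ 2 * (4 * ∑ S : Finset V, chi R (cliqueGraph S) + 2 ^ N) =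
      4 * ∑ R, hat R ^ 2 * ∑ S : Finset V, chi R (cliqueGraph S) + 2 ^ N * (Ω * F.card) := by
    rw [← hpar, Finset.mul_sum, Finset.mul_sum, ← Finset.sum_add_distrib]
    refine Finset.sum_congr rfl fun R _ => ?_
    ring
  rw [hupp] at hlow
  have hfin : 5 * 2 ^ N * (F.card : ℤ) * F.card ≤ Ω * (2 ^ N + 4 * (N + 1)) * F.card := by
    nlinarith
  rcases Nat.eq_zero_or_pos F.card with h | h
  · rw [h]
    simp only [Nat.cast_zero, mul_zero]
    positivity
  · exact le_of_mul_le_mul_right hfin (by exact_mod_cast h)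

end

/-- Every large family of density more than `1/5` contains two graphs whose symmetric difference
is a clique. -/
theorem weak_fifth (c : ℝ) (hc : 1 / 5 < c) :
    ∃ N : ℕ, ∀ n : ℕ, N ≤ n → ∀ F : Finset (SimpleGraph (Fin n)),
      c * (2 : ℝ) ^ (n.choose 2) ≤ (F.card : ℝ) →
      ∃ G₁ ∈ F, ∃ G₂ ∈ F, ∃ S : Finset (Fin n), 2 ≤ S.card ∧ G₁ ∆ G₂ = cliqueGraph S := by
  obtain ⟨N, hN⟩ : ∃ N : ℕ, ∀ n : ℕ, N ≤ n →
      (4 * ((n : ℝ) + 1)) < (5 * c - 1) * 2 ^ n := by
    have h1 : Filter.Tendsto (fun n : ℕ => (n : ℝ) ^ 1 / (2 : ℝ) ^ n) Filter.atTop (nhds 0) :=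
      tendsto_pow_const_div_const_pow_of_one_lt 1 (by norm_num)
    have h2 := h1.eventually (gt_mem_nhds (show (0 : ℝ) < (5 * c - 1) / 8 by linarith))
    obtain ⟨N, hN⟩ := Filter.eventually_atTop.1 h2
    refine ⟨max N 1, fun n hn => ?_⟩
    have h3 := hN n ((le_max_left _ _).trans hn)
    have hn1 : (1 : ℝ) ≤ n := by exact_mod_cast (le_max_right N 1).trans hn
    have h4 : (0 : ℝ) < 2 ^ n := by positivity
    rw [pow_one, div_lt_div_iff₀ h4 (by norm_num)] at h3
    linarith
  refine ⟨N, fun n hn F hF => ?_⟩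
  by_contra hcon
  push Not at hcon
  have h1 := weak_bound F hcon
  rw [card_graph, Fintype.card_fin] at h1
  have h2 : 5 * 2 ^ n * (F.card : ℝ) ≤ 2 ^ (n.choose 2) * (2 ^ n + 4 * (n + 1)) := by
    exact_mod_cast h1
  have h3 := hN n hn
  have h4 : (0 : ℝ) < 2 ^ (n.choose 2) := by positivity
  have h5 : (0 : ℝ) < 2 ^ n := by positivity
  have h6 : 5 * 2 ^ n * (c * (2 : ℝ) ^ (n.choose 2)) ≤ 5 * 2 ^ n * (F.card : ℝ) :=
    mul_le_mul_of_nonneg_left hF (by positivity)
  have h7 : (2 : ℝ) ^ (n.choose 2) * (5 * c * 2 ^ n) ≤ 2 ^ (n.choose 2) * (2 ^ n + 4 * (n + 1)) := by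
    linarith
  have h8 := le_of_mul_le_mul_left h7 h4
  linarith

end Pool.Agent.Lib.MP_b39aa3_co
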